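import Pool.Agent.K7.H6.PT.Spec
import Pool.Agent.R388.TP.Indep

/-!
# Components of closed sets defined over an algebraically closed subfield
-/

set_option autoImplicit false
set_option linter.unusedSectionVars false

namespace Pool.Agent.K7.H6.PT

open MvPolynomial Pool.Agent.Y129.TA Pool.Agent.X271.TQ
open Pool.Agent.Y129.TB (IsConeOver InTube Approximable DimLEOver form_map eval_map_alg BaseField)

/-- `Z` is an irreducible closed cone. -/
structure IsIrr {L ι : Type} [Field L] (Z : Set (ι → L)) : Prop where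
  cone : IsClosedCone Z
  ne : Z.Nonempty
  irr : ∀ f g : MvPolynomial ι L, (∀ z ∈ Z, eval z (f * g) = 0) →
    (∀ z ∈ Z, eval z f = 0) ∨ ∀ z ∈ Z, eval z g = 0

section homog

variable {k L : Type} [Field k] [Field L] [Algebra k L] {ι : Type} [Fintype ι]

attribute [local instance] MvPolynomial.gradedAlgebra

/-- Minimal primes of ideals generated by forms define cones. -/
theorem minimal_cone [IsAlgClosed L] {κ : Type} {S : κ → MvPolynomial ι k} (hS : ∀ k, IsForm (S k))
    {P : Ideal (MvPolynomial ι k)} (hP : P ∈ (Ideal.span (Set.range S)).minimalPrimes) :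
    IsConeOver k (zeroLocus L P) := by
  classical
  have hI : (Ideal.span (Set.range S)).IsHomogeneous (homogeneousSubmodule ι k) := by
    refine Ideal.homogeneous_span (homogeneousSubmodule ι k) _ ?_
    rintro _ ⟨j, rfl⟩
    obtain ⟨D, -, hD⟩ := hS j
    exact ⟨D, hD⟩
  have hPp : P.IsPrime := hP.1.1
  have h1 : Ideal.span (Set.range S) ≤ (P.homogeneousCore (homogeneousSubmodule ι k)).toIdeal := by
    rw [← hI.toIdeal_homogeneousCore_eq_self]
    exact Ideal.homogeneousCore_mono (homogeneousSubmodule ι k) hP.1.2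
  have h2 : (P.homogeneousCore (homogeneousSubmodule ι k)).toIdeal ≤ P := Ideal.toIdeal_homogeneousCore_le (homogeneousSubmodule ι k) P
  have h3 : P ≤ (P.homogeneousCore (homogeneousSubmodule ι k)).toIdeal := hP.2 ⟨hPp.homogeneousCore, h1⟩ h2
  have h4 : P.IsHomogeneous (homogeneousSubmodule ι k) := by
    rw [Ideal.IsHomogeneous.iff_eq]
    exact le_antisymm h2 h3
  obtain ⟨s', hs'⟩ := (Ideal.IsHomogeneous.iff_exists (homogeneousSubmodule ι k) P).1 h4
  refine ⟨⟨P, rfl⟩, fun a y hy => ?_⟩
  rw [mem_zeroLocus_iff] at hy ⊢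
  have h5 : P ≤ RingHom.ker (aeval (a • y) : MvPolynomial ι k →ₐ[k] L) := by
    conv_lhs => rw [hs']
    rw [Ideal.span_le]
    rintro _ ⟨s, hs, rfl⟩
    obtain ⟨D, hD⟩ := s.2
    have hsP : (s : MvPolynomial ι k) ∈ P := by
      rw [hs']
      exact Ideal.subset_span ⟨s, hs, rfl⟩
    change aeval (a • y) (s : MvPolynomial ι k) = 0
    rw [hom_smul hD, hy _ hsP, mul_zero]
  exact fun f hf => h5 hf

end homog

section irreducible

variable {k L : Type} [Field k] [Field L] [Algebra k L] {ι : Type} [Fintype ι] {τ : Type}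

/-- the coordinate of a polynomial over `L` with respect to an element of a basis of `L` over `k` -/
noncomputable def coordP (b : Module.Basis τ k L) (i : τ) (f : MvPolynomial ι L) :
    MvPolynomial ι k :=
  ∑ m ∈ f.support, monomial m (b.repr (coeff m f) i)

theorem eval_coordP (b : Module.Basis τ k L) (i : τ) (f : MvPolynomial ι L) (y : ι → k) :
    eval y (coordP b i f) = b.repr (eval (fun j => algebraMap k L (y j)) f) i := by
  classical
  rw [coordP, map_sum, eval_eq', map_sum, Finsupp.finsetSum_apply]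
  refine Finset.sum_congr rfl fun m _ => ?_
  rw [eval_monomial, Finsupp.prod_fintype _ _ (fun j => pow_zero _)]
  have h1 : coeff m f * ∏ j, algebraMap k L (y j) ^ m j = (∏ j, y j ^ m j) • coeff m f := by
    rw [Algebra.smul_def, map_prod, mul_comm]
    congr 1
    exact Finset.prod_congr rfl fun j _ => (map_pow _ _ _).symm
  rw [h1, map_smul, Finsupp.smul_apply, smul_eq_mul, mul_comm]

theorem eval_eq_coordP (b : Module.Basis τ k L) (f : MvPolynomial ι L) (x : ι → L)
    (h : ∀ i, aeval x (coordP b i f) = 0) : eval x f = 0 := by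
  classical
  let s : Finset τ := f.support.biUnion fun m => (b.repr (coeff m f)).support
  have h1 : ∀ m ∈ f.support, coeff m f = ∑ i ∈ s, algebraMap k L (b.repr (coeff m f) i) * b i := by
    intro m hm
    conv_lhs => rw [← b.linearCombination_repr (coeff m f), Finsupp.linearCombination_apply,
      Finsupp.sum]
    have h2 : (b.repr (coeff m f)).support ⊆ s := Finset.subset_biUnion_of_mem
      (fun m => (b.repr (coeff m f)).support) hm
    rw [Finset.sum_subset h2]
    · exact Finset.sum_congr rfl fun i _ => Algebra.smul_def _ _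
    · intro i _ hi
      rw [Finsupp.notMem_support_iff.1 hi, zero_smul]
  have h2 : eval x f = ∑ i ∈ s, b i * aeval x (coordP b i f) := by
    rw [eval_eq']
    have h3 : ∀ i, b i * aeval x (coordP b i f) =
        ∑ m ∈ f.support, b i * (algebraMap k L (b.repr (coeff m f) i) * ∏ j, x j ^ m j) := by
      intro i
      rw [coordP, map_sum, Finset.mul_sum]
      refine Finset.sum_congr rfl fun m _ => ?_
      rw [aeval_monomial, Finsupp.prod_fintype _ _ (fun j => pow_zero _)]
    rw [Finset.sum_congr rfl fun i _ => h3 i, Finset.sum_comm]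
    refine Finset.sum_congr rfl fun m hm => ?_
    conv_lhs => rw [h1 m hm]
    rw [Finset.sum_mul]
    refine Finset.sum_congr rfl fun i _ => ?_
    ring
  rw [h2]
  exact Finset.sum_eq_zero fun i _ => by rw [h i, mul_zero]

/-- The zero locus over `L` of a prime ideal over an algebraically closed subfield is irreducible. -/
theorem prime_irr [IsAlgClosed k] (P : Ideal (MvPolynomial ι k)) [hP : P.IsPrime]
    (f g : MvPolynomial ι L) (h : ∀ z ∈ zeroLocus L P, eval z (f * g) = 0) :
    (∀ z ∈ zeroLocus L P, eval z f = 0) ∨ ∀ z ∈ zeroLocus L P, eval z g = 0 := by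
  classical
  let b := Module.Basis.ofVectorSpace k L
  by_contra hno
  push Not at hno
  obtain ⟨⟨x, hx, hxf⟩, ⟨x', hx', hxg⟩⟩ := hno
  obtain ⟨i, hi⟩ : ∃ i, coordP b i f ∉ P := by
    by_contra hall
    push Not at hall
    exact hxf (eval_eq_coordP b f x fun i => (mem_zeroLocus_iff.1 hx) _ (hall i))
  obtain ⟨j, hj⟩ : ∃ j, coordP b j g ∉ P := by
    by_contra hall
    push Not at hall
    exact hxg (eval_eq_coordP b g x' fun i => (mem_zeroLocus_iff.1 hx') _ (hall i))
  obtain ⟨y, hy, hyn⟩ := Pool.Agent.K7.H3.ZC.exists_zero P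
    (show coordP b i f * coordP b j g ∉ P from fun hm => (hP.mem_or_mem hm).elim hi hj)
  rw [map_mul] at hyn
  have hyf : eval (fun t => algebraMap k L (y t)) f ≠ 0 := by
    intro h0
    apply left_ne_zero_of_mul hyn
    rw [aeval_eq_eval, eval_coordP, h0, map_zero, Finsupp.zero_apply]
  have hyg : eval (fun t => algebraMap k L (y t)) g ≠ 0 := by
    intro h0
    apply right_ne_zero_of_mul hyn
    rw [aeval_eq_eval, eval_coordP, h0, map_zero, Finsupp.zero_apply]
  have hmem : (fun t => algebraMap k L (y t)) ∈ zeroLocus L P := by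
    rw [mem_zeroLocus_iff]
    intro f' hf'
    have h1 : aeval (fun t => algebraMap k L (y t)) f' = algebraMap k L (aeval y f') := by
      rw [← aeval_algebraMap_apply]
      rfl
    rw [h1, hy f' hf', map_zero]
  have h1 := h _ hmem
  rw [map_mul] at h1
  exact mul_ne_zero hyf hyg h1

end irreducible

section component

variable {k L : Type} [Field k] [Field L] [Algebra k L] {ι : Type} [Fintype ι] [IsAlgClosed k]
  [IsAlgClosed L]

theorem zeroLocus_map (P : Ideal (MvPolynomial ι k)) :
    zeroLocus L P = zeroLocus L (P.map (MvPolynomial.map (algebraMap k L))) := by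
  ext y
  rw [mem_zeroLocus_iff, mem_zeroLocus_iff]
  constructor
  · intro h1
    have h2 : P.map (MvPolynomial.map (algebraMap k L)) ≤
        RingHom.ker (aeval y : MvPolynomial ι L →ₐ[L] L) := by
      rw [Ideal.map_le_iff_le_comap]
      intro f hf
      change aeval y (MvPolynomial.map (algebraMap k L) f) = 0
      rw [aeval_map_algebraMap]
      exact h1 f hf
    exact fun f hf => h2 hf
  · intro h1 f hf
    have h2 := h1 _ (Ideal.mem_map_of_mem _ hf)
    rwa [aeval_map_algebraMap] at h2

/-- If the dimension of the zero set of forms over `k` is at least `d` then this holds for one of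
the components defined over `k`. -/
theorem exists_component {κ : Type} {S : κ → MvPolynomial ι k} (hS : ∀ j, IsForm (S j)) {d : ℕ}
    (hd : DimGE {x : ι → L | ∀ j, aeval x (S j) = 0} d) :
    ∃ P ∈ (Ideal.span (Set.range S)).minimalPrimes, DimGE (zeroLocus L P) d := by
  classical
  set J : Ideal (MvPolynomial ι L) :=
    (Ideal.span (Set.range S)).map (MvPolynomial.map (algebraMap k L)) with hJ
  have hset : {x : ι → L | ∀ j, aeval x (S j) = 0} = zeroLocus L J := by
    rw [hJ, ← zeroLocus_map]
    ext x
    rw [mem_zeroLocus_iff]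
    constructor
    · intro hx f hf
      have h1 : Ideal.span (Set.range S) ≤ RingHom.ker (aeval x : MvPolynomial ι k →ₐ[k] L) := by
        rw [Ideal.span_le]
        rintro _ ⟨j, rfl⟩
        exact hx j
      exact h1 hf
    · exact fun hx j => hx _ (Ideal.subset_span ⟨j, rfl⟩)
  have hz : IsZero L S {x : ι → L | ∀ j, aeval x (S j) = 0} := fun y => Iff.rfl
  have hcone := (hz.cone hS).2
  rw [hset] at hcone hd
  obtain ⟨PL, hPLp, hJP, z, hz⟩ := Pool.Agent.R388.TP.exists_algInd hcone hd
  have hP₀ : (PL.comap (MvPolynomial.map (algebraMap k L))).IsPrime := Ideal.comap_isPrime _ _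
  have hle : Ideal.span (Set.range S) ≤ PL.comap (MvPolynomial.map (algebraMap k L)) := by
    rw [← Ideal.map_le_iff_le_comap]
    exact hJP
  obtain ⟨P, hP, hPP⟩ := Ideal.exists_minimalPrimes_le hle
  refine ⟨P, hP, ?_⟩
  have hPp : P.IsPrime := hP.1.1
  have hc := minimal_cone (L := L) hS hP
  have hne : (zeroLocus L P).Nonempty := by
    obtain ⟨v, hv, -⟩ := Pool.Agent.K7.H3.ZC.exists_zero P
      (show (1 : MvPolynomial ι k) ∉ P from fun h => hPp.ne_top ((Ideal.eq_top_iff_one P).2 h))
    refine ⟨fun t => algebraMap k L (v t), ?_⟩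
    rw [mem_zeroLocus_iff]
    intro f hf
    have h1 : aeval (fun t => algebraMap k L (v t)) f = algebraMap k L (aeval v f) := by
      rw [← aeval_algebraMap_apply]
      rfl
    rw [h1, hv f hf, map_zero]
  obtain ⟨r, G, hG, hGP⟩ := exists_forms hc hne
  intro q hq
  by_contra hno
  push Not at hno
  obtain ⟨N, hN, u, hu, hu0⟩ := same_degree q hq
  choose D hD hGD using hG
  choose Φ hΦ using fun b : Fin (d + 1) => Ideal.Quotient.mk_surjective (I := PL) (z b)
  obtain ⟨R, hR0, hR⟩ := rel_exists (fun j => MvPolynomial.map (algebraMap k L) (G j)) D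
    (fun j => (hGD j).map _) u hN hu (fun w hw hwu => by
      by_contra hw0
      obtain ⟨j, hj⟩ := hno w ((hGP w).2 fun j => by rw [← eval_map_alg]; exact hw j) hw0
      exact hj ((hu0 w j).1 (hwu j))) (β := Fin (d + 1)) (by simp) Φ
  apply hR0
  have h1 : aeval Φ R ∈ PL := by
    have h2 : aeval Φ R ∈ vanishingIdeal L (zeroLocus L P) := by
      rw [mem_vanishingIdeal_iff]
      intro w hw
      have h3 := hR w fun j => by rw [eval_map_alg]; exact (hGP w).1 hw j
      rw [aeval_eq_eval]
      have h4 : eval w (aeval Φ R) = eval (fun b => eval w (Φ b)) R := by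
        have h5 : (eval w : MvPolynomial ι L →+* L).comp
            (aeval Φ : MvPolynomial (Fin (d + 1)) L →ₐ[L] MvPolynomial ι L).toRingHom =
              eval fun b => eval w (Φ b) :=
          MvPolynomial.ringHom_ext (fun c => by simp) fun i => by simp
        exact congrArg (fun χ : MvPolynomial (Fin (d + 1)) L →+* L => χ R) h5
      rw [h4, h3]
    rw [zeroLocus_map, vanishingIdeal_zeroLocus_eq_radical] at h2
    have h3 : (P.map (MvPolynomial.map (algebraMap k L))).radical ≤ PL :=
      hPLp.radical_le_iff.2 (Ideal.map_le_iff_le_comap.2 hPP)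
    exact h3 h2
  have h2 : aeval z R = 0 := by
    have h3 : z = fun b => Ideal.Quotient.mkₐ L PL (Φ b) := funext fun b => (hΦ b).symm
    rw [h3]
    have h4 : aeval (fun b => Ideal.Quotient.mkₐ L PL (Φ b)) R =
        Ideal.Quotient.mkₐ L PL (aeval Φ R) := by
      have h5 : (aeval (fun b => Ideal.Quotient.mkₐ L PL (Φ b)) :
          MvPolynomial (Fin (d + 1)) L →ₐ[L] _) = (Ideal.Quotient.mkₐ L PL).comp (aeval Φ) := by
        ext i
        simp
      exact congrArg (fun χ : MvPolynomial (Fin (d + 1)) L →ₐ[L] _ => χ R) h5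
    rw [h4]
    exact Ideal.Quotient.eq_zero_iff_mem.2 h1
  exact hz (by rw [h2, map_zero])

/-- The union of the components of dimension at least `d` which are defined over `k`. -/
def bigPart (k L : Type) [Field k] [Field L] [Algebra k L] {ι κ : Type}
    (S : κ → MvPolynomial ι k) (d : ℕ) : Set (ι → L) :=
  {x | ∃ P ∈ (Ideal.span (Set.range S)).minimalPrimes, DimGE (zeroLocus L P) d ∧
    x ∈ zeroLocus L P}

theorem bigPart_cone {κ : Type} {S : κ → MvPolynomial ι k} (hS : ∀ j, IsForm (S j)) (d : ℕ) :
    IsConeOver k (bigPart k L S d) := by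
  classical
  set I := Ideal.span (Set.range S) with hI
  have hfin : I.minimalPrimes.Finite := Ideal.finite_minimalPrimes_of_isNoetherianRing _ I
  let Ps : Set (Ideal (MvPolynomial ι k)) := {P | P ∈ I.minimalPrimes ∧ DimGE (zeroLocus L P) d}
  have hfin' : Ps.Finite := hfin.subset fun P hP => hP.1
  refine ⟨⟨sInf Ps, ?_⟩, ?_⟩
  · ext x
    constructor
    · rintro ⟨P, hP, hPd, hx⟩
      have h1 : sInf Ps ≤ P := sInf_le (show P ∈ Ps from ⟨hP, hPd⟩)
      exact zeroLocus_anti_mono h1 hx
    · intro hx
      by_contra hno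
      have h1 : ∀ P : Ps, ∃ f ∈ P.1, aeval x f ≠ 0 := by
        intro P
        by_contra h2
        push Not at h2
        exact hno ⟨P.1, P.2.1, P.2.2, mem_zeroLocus_iff.2 h2⟩
      choose f hf hfx using h1
      have : Fintype Ps := hfin'.fintype
      have h2 : (∏ P, f P) ∈ sInf Ps := by
        rw [Ideal.mem_sInf]
        intro P hP
        exact Ideal.mem_of_dvd P (Finset.dvd_prod_of_mem f (Finset.mem_univ ⟨P, hP⟩)) (hf ⟨P, hP⟩)
      have h3 := (mem_zeroLocus_iff.1 hx) _ h2
      rw [map_prod, Finset.prod_eq_zero_iff] at h3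
      obtain ⟨P, -, hP⟩ := h3
      exact hfx P hP
  · rintro a y ⟨P, hP, hPd, hy⟩
    exact ⟨P, hP, hPd, (minimal_cone (L := L) hS hP).2 a y hy⟩

end component

end Pool.Agent.K7.H6.PT
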