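import Pool.Agent.K7.H6.PT.Limit

/-!
# Families of approximable varieties
-/

set_option autoImplicit false
set_option linter.unusedSectionVars false

namespace Pool.Agent.K7.H6.PT

open MvPolynomial Pool.Agent.Y129.TA Pool.Agent.X271.TQ
open Pool.Agent.Y129.TB (IsConeOver InTube Approximable DimLEOver form_map eval_map_alg BaseField)
open Pool.Agent.R388.TP (IsToricUnion q1_of_toricUnion nonempty_of_approximable dimGE_of_small
  small_of_approximable exists_gens)

/-- The member with parameter `t` of the family of the closed sets given by the forms `S k`, whose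
coefficients are polynomials in the parameter. -/
def member (C : Type) {K : Type} [Field C] [Field K] [Algebra K C] {τ κ : Type} {n : ℕ}
    (S : κ → MvPolynomial (Fin (n + 1)) (MvPolynomial τ K)) (t : τ → K) : Set (Fin (n + 1) → C) :=
  {x | ∀ k, aeval x (MvPolynomial.map (eval t) (S k)) = 0}

variable {p : ℕ} [hp : Fact p.Prime] {C F K E : Type} [Field C] [Field F] [CharP F p] [Field K]
  [Field E] [Algebra K C] [Algebra E F]

/-- Q1 is known for `X`, or it is assumed. -/
def Known (T : Tilting p C F) (K E : Type) [Field K] [Field E] [Algebra K C] [Algebra E F] {n : ℕ}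
    (X : Set (Fin (n + 1) → C)) (d : ℕ) : Prop :=
  IsToricUnion K X d ∨ IsConeOver K X ∧ Approximable T.toTiltPair K E X d

theorem Known.good [IsAlgClosed C] [IsAlgClosed F] {T : Tilting p C F} (B : BaseField T K E) {n d : ℕ}
    {X : Set (Fin (n + 1) → C)} (h : Known T K E X d) :
    IsConeOver K X ∧ DimGE X d ∧ Approximable T.toTiltPair K E X d := by
  have : Infinite C := IsAlgClosed.instInfinite
  obtain ⟨h1, h2⟩ := q1_of_toricUnion T B h
  obtain ⟨s, g, hg, hXg⟩ := exists_gens h1 (nonempty_of_approximable T.toTiltPair h2)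
  have h3 := dimGE_of_small T (small_of_approximable T.toTiltPair g hg hXg h2)
  rw [← hXg] at h3
  exact ⟨h1, h3, h2⟩

theorem limit_main [IsAlgClosed C] [IsAlgClosed F] (T : Tilting p C F) (B : BaseField T K E)
    {n d : ℕ} {X : Set (Fin (n + 1) → C)} (hX : IsConeOver K X) (hne : X.Nonempty)
    (hd : DimLEOver K X d)
    (hlim : ∀ δ : ℝ, 0 < δ → ∃ X' : Set (Fin (n + 1) → C), Known T K E X' d ∧
      Within T.absK X' X δ) : DimGE X d ∧ Approximable T.toTiltPair K E X d :=
  limit T B hX hne hd fun δ hδ => by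
    obtain ⟨X', h1, h2⟩ := hlim δ hδ
    obtain ⟨h3, h4, h5⟩ := h1.good B
    exact ⟨X', h3, h4, h5, h2⟩

theorem member_cone [IsAlgClosed C] {τ κ : Type} {n : ℕ}
    {S : κ → MvPolynomial (Fin (n + 1)) (MvPolynomial τ K)}
    (hS : ∀ k, ∃ D, 0 < D ∧ (S k).IsHomogeneous D) (t : τ → K) :
    IsConeOver K (member C S t) ∧ (member C S t).Nonempty := by
  have h1 : ∀ k, IsForm (MvPolynomial.map (eval t) (S k)) := fun k => by
    obtain ⟨D, hD, h⟩ := hS k
    exact ⟨D, hD, h.map _⟩
  have h2 : IsZero C (fun k => MvPolynomial.map (eval t) (S k)) (member C S t) := fun y => Iff.rfl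
  exact ⟨h2.cone h1, 0, fun k => aeval_zero_form (h1 k)⟩

/-- the coefficients of the members of a family depend continuously on the parameter -/
theorem family_close {a : AbsoluteValue C ℝ} (ha : ∀ x y, a (x + y) ≤ max (a x) (a y))
    {τ κ ι : Type} [Fintype τ] [Fintype κ]
    (S : κ → MvPolynomial ι (MvPolynomial τ K)) (t₀ : τ → K) {η : ℝ} (hη : 0 < η) :
    ∃ ε : ℝ, 0 < ε ∧ ∀ t : τ → K, (∀ i, a (algebraMap K C (t i) - algebraMap K C (t₀ i)) ≤ ε) →
      ∀ k m, a (coeff m (MvPolynomial.map (algebraMap K C) (MvPolynomial.map (eval t₀) (S k))) -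
        coeff m (MvPolynomial.map (algebraMap K C) (MvPolynomial.map (eval t) (S k)))) ≤ η := by
  classical
  obtain ⟨R, hR1, hRw⟩ : ∃ R : ℝ, 1 ≤ R ∧ ∀ j, a (algebraMap K C (t₀ j)) ≤ R := by
    refine ⟨1 + ∑ j, a (algebraMap K C (t₀ j)), ?_, fun j => ?_⟩
    · have : 0 ≤ ∑ j, a (algebraMap K C (t₀ j)) := Finset.sum_nonneg fun j _ => a.nonneg _
      linarith
    · have := Finset.single_le_sum (f := fun j => a (algebraMap K C (t₀ j)))
        (fun j _ => a.nonneg _) (Finset.mem_univ j)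
      linarith
  let J : Type := (k : κ) × (S k).support
  choose B hB hB1 hB2 using fun j : J => lipschitz ha (zero_lt_one.trans_le hR1)
    (MvPolynomial.map (algebraMap K C) (coeff (j.2 : ι →₀ ℕ) (S j.1)))
  set Bs : ℝ := 1 + ∑ j, B j with hBs
  have hBs0 : 0 < Bs := by
    have : 0 ≤ ∑ j, B j := Finset.sum_nonneg fun j _ => (hB j).le
    linarith
  have hBj : ∀ j, B j ≤ Bs := fun j => by
    have := Finset.single_le_sum (f := fun j => B j) (fun j _ => (hB j).le) (Finset.mem_univ j)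
    linarith
  have hr0 : 0 < min 1 (η / Bs) := lt_min one_pos (by positivity)
  refine ⟨min 1 (η / Bs), hr0, fun t ht k m => ?_⟩
  rw [coeff_map, coeff_map, coeff_map, coeff_map]
  by_cases hm : m ∈ (S k).support
  · have htR : ∀ j, a (algebraMap K C (t j)) ≤ R := by
      intro j
      have h1 : algebraMap K C (t j) = algebraMap K C (t₀ j) +
          (algebraMap K C (t j) - algebraMap K C (t₀ j)) := by ring
      rw [h1]
      exact (ha _ _).trans (max_le (hRw j) ((ht j).trans ((min_le_left _ _).trans hR1)))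
    have h2 := hB2 ⟨k, ⟨m, hm⟩⟩ (fun i => algebraMap K C (t₀ i)) (fun i => algebraMap K C (t i))
      hRw htR _ hr0.le (fun i => by rw [AbsoluteValue.map_sub]; exact ht i)
    have h3 : ∀ u : τ → K, eval (fun i => algebraMap K C (u i))
        (MvPolynomial.map (algebraMap K C) (coeff m (S k))) =
          algebraMap K C (eval u (coeff m (S k))) := by
      intro u
      have h4 : (eval fun i => algebraMap K C (u i)).comp (MvPolynomial.map (algebraMap K C)) =
          (algebraMap K C).comp (eval u : MvPolynomial τ K →+* K) :=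
        MvPolynomial.ringHom_ext (fun c => by simp) fun i => by simp
      exact congrArg (fun χ : MvPolynomial τ K →+* C => χ (coeff m (S k))) h4
    simp only at h2
    rw [h3, h3] at h2
    refine h2.trans ?_
    calc B ⟨k, ⟨m, hm⟩⟩ * min 1 (η / Bs) ≤ Bs * (η / Bs) :=
          mul_le_mul (hBj _) (min_le_right _ _) hr0.le hBs0.le
      _ = η := by field_simp
  · rw [notMem_support_iff.1 hm, map_zero, map_zero, map_zero, map_zero, sub_zero, map_zero]
    exact hη.le

/-- **Families.** -/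
theorem family [IsAlgClosed C] [IsAlgClosed F] (T : Tilting p C F) (B : BaseField T K E)
    {τ κ : Type} [Fintype τ] [Fintype κ] {n d : ℕ}
    (S : κ → MvPolynomial (Fin (n + 1)) (MvPolynomial τ K))
    (hS : ∀ k, ∃ D, 0 < D ∧ (S k).IsHomogeneous D) (Θ : Set (τ → K))
    (hΘ : ∀ t ∈ Θ, ∃ X' ⊆ member C S t, Known T K E X' d) (t₀ : τ → K)
    (ht₀ : ∀ ε : ℝ, 0 < ε → ∃ t ∈ Θ, ∀ i, T.absK (algebraMap K C (t i) - algebraMap K C (t₀ i)) ≤ ε)
    (hd : DimLEOver K (member C S t₀) d) :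
    DimGE (member C S t₀) d ∧ Approximable T.toTiltPair K E (member C S t₀) d := by
  classical
  obtain ⟨hc, hne⟩ := member_cone (C := C) hS t₀
  refine limit_main T B hc hne hd fun δ hδ => ?_
  obtain ⟨η, hη, h1⟩ := tube T.ultraK
    (fun k => MvPolynomial.map (algebraMap K C) (MvPolynomial.map (eval t₀) (S k))) hδ
  obtain ⟨ε, hε, h2⟩ := family_close T.ultraK S t₀ hη
  obtain ⟨t, ht, htt⟩ := ht₀ ε hε
  obtain ⟨X', hX', hK⟩ := hΘ t ht
  refine ⟨X', hK, fun x' hx' hx1 => ?_⟩
  obtain ⟨y, hy, hyx⟩ := h1 x' hx1 fun k => by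
    have h3 := close_coeff T.ultraK hη.le (h2 t htt k) hx1
    have h4 : eval x' (MvPolynomial.map (algebraMap K C) (MvPolynomial.map (eval t) (S k))) = 0 := by
      rw [eval_map_alg]
      exact hX' hx' k
    rwa [h4, sub_zero] at h3
  exact ⟨y, fun k => by rw [← eval_map_alg]; exact hy k, hyx⟩

theorem baseField_self [IsAlgClosed F] (T : Tilting p C F) : BaseField T C F := by
  refine ⟨fun x => ?_, ?_, fun x _ => ⟨T.θ x, rfl⟩, fun y hy => ?_⟩
  · obtain ⟨b, hb⟩ := IsAlgClosed.exists_pow_nat_eq x hp.out.pos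
    exact ⟨b, hb⟩
  · obtain ⟨ϖ, hϖ⟩ := T.surj (p : C)
    refine ⟨ϖ, ?_⟩
    have h1 := T.abs_sharp ϖ
    rw [hϖ] at h1
    exact h1.symm
  · obtain ⟨x, hx⟩ := T.θ_surj y hy
    exact ⟨x, fun n => ⟨_, rfl⟩, hx⟩

/-- **Families over an irreducible base.** -/
theorem family_irreducible [IsAlgClosed C] [IsAlgClosed F] (T : Tilting p C F)
    {τ κ : Type} [Fintype τ] [Fintype κ] {n d : ℕ}
    (S : κ → MvPolynomial (Fin (n + 1)) (MvPolynomial τ C))
    (hS : ∀ k, ∃ D, 0 < D ∧ (S k).IsHomogeneous D) (P : Ideal (MvPolynomial τ C)) [P.IsPrime]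
    (Φ : MvPolynomial τ C) (hΦ : Φ ∉ P)
    (hgen : ∀ t, (∀ f ∈ P, eval t f = 0) → eval t Φ ≠ 0 → ∃ X' ⊆ member C S t, Known T C F X' d)
    (t₀ : τ → C) (ht₀ : ∀ f ∈ P, eval t₀ f = 0) (hd : DimLE (member C S t₀) d) :
    DimGE (member C S t₀) d ∧ Approximable T.toTiltPair C F (member C S t₀) d := by
  have hsmall : ∀ ε : ℝ, 0 < ε → ∃ x : C, x ≠ 0 ∧ T.absK x ≤ ε := by
    intro ε hε
    obtain ⟨k, hk⟩ := exists_pow_lt_of_lt_one hε T.p_lt
    exact ⟨(p : C) ^ k, pow_ne_zero _ T.p_ne, by rw [map_pow]; exact hk.le⟩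
  refine family T (baseField_self T) S hS {t | (∀ f ∈ P, eval t f = 0) ∧ eval t Φ ≠ 0}
    (fun t ht => hgen t ht.1 ht.2) t₀ (fun ε hε => ?_) ?_
  · obtain ⟨t, h1, h2, h3⟩ := dense_open T.ultraK hsmall P hΦ ht₀ hε
    exact ⟨t, ⟨h1, h2⟩, h3⟩
  · obtain ⟨q, hq, h0⟩ := hd
    exact ⟨q, hq, h0⟩

end Pool.Agent.K7.H6.PT
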