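import Pool.Agent.K7.H6.PT.Limit

/-!
# Continuity of the sharp map
-/

set_option autoImplicit false
set_option linter.unusedSectionVars false

namespace Pool.Agent.K7.H6.PT

open MvPolynomial Pool.Agent.Y129.TA WittVector

section

variable {L : Type} [Field L] {a : AbsoluteValue L ℝ}

theorem abs_nat_le (ha : ∀ x y, a (x + y) ≤ max (a x) (a y)) (n : ℕ) : a (n : L) ≤ 1 := by
  induction n with
  | zero => rw [Nat.cast_zero, map_zero]; exact zero_le_one
  | succ n ih =>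
    rw [Nat.cast_succ]
    exact (ha _ _).trans (max_le ih (by rw [map_one]))

theorem ultra_sum' (ha : ∀ x y, a (x + y) ≤ max (a x) (a y)) {ι : Type} (s : Finset ι)
    (f : ι → L) {B : ℝ} (hB : 0 ≤ B) (h : ∀ i ∈ s, a (f i) ≤ B) : a (∑ i ∈ s, f i) ≤ B := by
  classical
  induction s using Finset.induction_on with
  | empty => rwa [Finset.sum_empty, AbsoluteValue.map_zero]
  | insert i s hi ih =>
    rw [Finset.sum_insert hi]
    exact (ha _ _).trans (max_le (h i (Finset.mem_insert_self i s))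
      (ih fun j hj => h j (Finset.mem_insert_of_mem hj)))

/-- The `p`-th power map is contracting. -/
theorem pow_sub_le (ha : ∀ x y, a (x + y) ≤ max (a x) (a y)) {p : ℕ} (hp : p.Prime) {u v : L}
    (hu : a u ≤ 1) (hv : a v ≤ 1) :
    a (u ^ p - v ^ p) ≤ max (a (u - v)) (a (p : L)) * a (u - v) := by
  set w := u - v with hw
  have hw1 : a w ≤ 1 := (abs_sub_le' ha u v).trans (max_le hu hv)
  have h1 : u ^ p - v ^ p = w ^ p + (p : L) * ∑ k ∈ Finset.Ioo 0 p,
      v ^ k * w ^ (p - k) * ((p.choose k / p : ℕ) : L) := by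
    have h2 : u = v + w := by rw [hw]; ring
    rw [h2, add_pow_prime_eq' hp]
    ring
  rw [h1]
  refine (ha _ _).trans (max_le ?_ ?_)
  · rw [map_pow]
    have h3 : a w ^ p = a w ^ (p - 1) * a w := by
      rw [← pow_succ]
      congr 1
      have := hp.pos
      omega
    rw [h3]
    refine mul_le_mul_of_nonneg_right ?_ (a.nonneg _)
    refine le_trans ?_ (le_max_left _ _)
    have h4 := pow_le_of_le_one (a.nonneg w) hw1 (n := p - 1) (by have := hp.two_le; omega)
    exact h4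
  · rw [map_mul]
    refine mul_le_mul (le_max_right _ _) ?_ (a.nonneg _) (le_max_of_le_left (a.nonneg _))
    refine ultra_sum' ha _ _ (a.nonneg _) fun k hk => ?_
    rw [Finset.mem_Ioo] at hk
    rw [map_mul, map_mul, map_pow, map_pow]
    have h3 : a v ^ k ≤ 1 := pow_le_one₀ (a.nonneg _) hv
    have h4 : a w ^ (p - k) ≤ a w := pow_le_of_le_one (a.nonneg w) hw1 (by omega)
    calc a v ^ k * a w ^ (p - k) * a ((p.choose k / p : ℕ) : L) ≤ 1 * a w * 1 := by
          refine mul_le_mul (mul_le_mul h3 h4 (pow_nonneg (a.nonneg _) _) zero_le_one)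
            (abs_nat_le ha _) (a.nonneg _) (by rw [one_mul]; exact a.nonneg _)
      _ = a w := by ring

/-- Iterated `p`-th powers. -/
theorem pow_pow_sub_le (ha : ∀ x y, a (x + y) ≤ max (a x) (a y)) {p : ℕ} (hp : p.Prime)
    {ρ r : ℝ} (hr : r ≤ ρ) (hpρ : a (p : L) ≤ ρ) (hρ1 : ρ ≤ 1) {u v : L}
    (hu : a u ≤ 1) (hv : a v ≤ 1) (huv : a (u - v) ≤ r) (M : ℕ) :
    a (u ^ p ^ M - v ^ p ^ M) ≤ ρ ^ M * r := by
  have hρ0 : 0 ≤ ρ := (a.nonneg _).trans hpρ
  have hr0 : 0 ≤ r := (a.nonneg _).trans huv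
  induction M with
  | zero => rw [pow_zero, pow_one, pow_one, pow_zero, one_mul]; exact huv
  | succ M ih =>
    rw [pow_succ p M, pow_mul, pow_mul]
    refine (pow_sub_le ha hp (by rw [map_pow]; exact pow_le_one₀ (a.nonneg _) hu)
      (by rw [map_pow]; exact pow_le_one₀ (a.nonneg _) hv)).trans ?_
    have h1 : a (u ^ p ^ M - v ^ p ^ M) ≤ ρ :=
      ih.trans ((mul_le_of_le_one_left hr0 (pow_le_one₀ hρ0 hρ1)).trans hr)
    calc _ ≤ ρ * (ρ ^ M * r) := mul_le_mul (max_le h1 hpρ) ih (a.nonneg _) hρ0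
      _ = ρ ^ (M + 1) * r := by ring

end

variable {p : ℕ} [hp : Fact p.Prime] {C F : Type} [Field C] [Field F] [CharP F p] [IsAlgClosed F]

theorem sharp_sub_le (T : Tilting p C F) {x y : F} (hx : T.absF x ≤ 1) (hy : T.absF y ≤ 1) :
    T.absK (T.sharp x - T.sharp y) ≤ max (T.absF (x - y)) (T.absK p) := by
  let z : WittVector p T.O := teichmuller p (⟨x, hx⟩ : T.O) - teichmuller p (⟨y, hy⟩ : T.O)
  have h1 : T.θ z = T.sharp x - T.sharp y := by
    rw [map_sub, T.θ_teich, T.θ_teich]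
  have h2 : ((z.coeff 0 : T.O) : F) = x - y := by
    have h3 : z.coeff 0 = (⟨x, hx⟩ : T.O) - ⟨y, hy⟩ := by
      have h4 := map_sub (WittVector.constantCoeff (p := p) (R := T.O))
        (teichmuller p (⟨x, hx⟩ : T.O)) (teichmuller p (⟨y, hy⟩ : T.O))
      change z.coeff 0 = (teichmuller p (⟨x, hx⟩ : T.O)).coeff 0 -
        (teichmuller p (⟨y, hy⟩ : T.O)).coeff 0 at h4
      rw [teichmuller_coeff_zero, teichmuller_coeff_zero] at h4
      exact h4
    rw [h3]
    rfl
  rw [← h1, ← h2]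
  exact Tilting.abs_θ_le T z

/-- The sharp map is uniformly continuous on the unit ball. -/
theorem sharp_cont (T : Tilting p C F) {ε : ℝ} (hε : 0 < ε) :
    ∃ δ : ℝ, 0 < δ ∧ ∀ x y : F, T.absF x ≤ 1 → T.absF y ≤ 1 → T.absF (x - y) ≤ δ →
      T.absK (T.sharp x - T.sharp y) ≤ ε := by
  have hp0 : 0 < T.absK p := T.absK.pos T.p_ne
  obtain ⟨m, hm⟩ := exists_pow_lt_of_lt_one hε T.p_lt
  refine ⟨T.absK p ^ p ^ m, by positivity, fun x y hx hy hxy => ?_⟩
  have hpm : 0 < p ^ m := pow_pos hp.out.pos m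
  obtain ⟨u, hu⟩ := IsAlgClosed.exists_pow_nat_eq x hpm
  obtain ⟨v, hv⟩ := IsAlgClosed.exists_pow_nat_eq y hpm
  have hu1 : T.absF u ≤ 1 := by
    rw [← hu, map_pow] at hx
    exact (pow_le_one_iff_of_nonneg (T.absF.nonneg _) hpm.ne').1 hx
  have hv1 : T.absF v ≤ 1 := by
    rw [← hv, map_pow] at hy
    exact (pow_le_one_iff_of_nonneg (T.absF.nonneg _) hpm.ne').1 hy
  have huv : T.absF (u - v) ≤ T.absK p := by
    rw [← hu, ← hv, ← sub_pow_char_pow, map_pow] at hxy
    exact le_of_pow_le_pow_left₀ hpm.ne' hp0.le hxy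
  have h1 := (sharp_sub_le T hu1 hv1).trans (max_le huv le_rfl)
  have h2 := pow_pow_sub_le T.ultraK hp.out (le_refl (T.absK p)) le_rfl T.p_lt.le
    (by rw [T.abs_sharp]; exact hu1) (by rw [T.abs_sharp]; exact hv1) h1 m
  rw [← hu, ← hv, map_pow, map_pow]
  refine h2.trans (le_trans ?_ hm.le)
  exact mul_le_of_le_one_right (by positivity) T.p_lt.le

end Pool.Agent.K7.H6.PT
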