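import Pool.Agent.K7.H6.PT.Spec
import Pool.Agent.K7.H6.PT.Sharp
import Pool.Agent.K7.H6.PT.Family
import Pool.Agent.R388.TP.DescentMain

/-!
# The field of definition of the approximating varieties
-/

set_option autoImplicit false
set_option linter.unusedSectionVars false

namespace Pool.Agent.K7.H6.PT

open MvPolynomial Pool.Agent.Y129.TA Pool.Agent.X271.TQ
open Pool.Agent.Y129.TB (IsConeOver InTube Approximable DimLEOver form_map eval_map_alg BaseField)
open Pool.Agent.R388.TP (GaloisLift descent nonempty_of_approximable)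

variable {p : ℕ} [hp : Fact p.Prime] {C F K E : Type} [Field C] [Field F] [CharP F p] [Field K]
  [Field E] [Algebra K C] [Algebra E F]

theorem isConeOver_up {L L' L'' ι : Type} [Field L] [Field L'] [Field L''] [Algebra L L'']
    [Algebra L L'] [Algebra L' L''] [IsScalarTower L L' L''] {Y : Set (ι → L'')}
    (h : IsConeOver L Y) : IsConeOver L' Y := by
  obtain ⟨⟨J, hJ⟩, hc⟩ := h
  refine ⟨⟨J.map (MvPolynomial.map (algebraMap L L')), ?_⟩, hc⟩
  rw [hJ]
  ext y
  rw [mem_zeroLocus_iff, mem_zeroLocus_iff]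
  constructor
  · intro h1
    have h2 : J.map (MvPolynomial.map (algebraMap L L')) ≤
        RingHom.ker (aeval y : MvPolynomial ι L' →ₐ[L'] L'') := by
      rw [Ideal.map_le_iff_le_comap]
      intro f hf
      change aeval y (MvPolynomial.map (algebraMap L L') f) = 0
      rw [aeval_map_algebraMap]
      exact h1 f hf
    exact fun f hf => h2 hf
  · intro h1 f hf
    have h2 := h1 _ (Ideal.mem_map_of_mem _ hf)
    rwa [aeval_map_algebraMap] at h2

/-- Points over a dense subfield. -/
theorem approx_dense [IsAlgClosed C] [IsAlgClosed F] (T : Tilting p C F) {E' : Type} [Field E']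
    [Algebra E' F] [IsAlgClosed E'] (hdense : IsDenseIn E' F T.absF) {n d : ℕ}
    {X : Set (Fin (n + 1) → C)} (hX0 : (0 : Fin (n + 1) → C) ∈ X)
    (hA : Approximable T.toTiltPair K F X d) : Approximable T.toTiltPair K E' X d := by
  classical
  intro r P D hP hPX ε hε
  obtain ⟨Y, hYc, hYge, ⟨q, hq, hq0⟩, hYt⟩ := hA r P D hP hPX ε hε
  obtain ⟨s, G, hG, hGY⟩ := exists_forms hYc (DimGE.nonempty hYge)
  choose DG hDG hGh using hG
  have hYset : Y = {x | ∀ k, eval x (G k) = 0} := by
    ext x
    rw [hGY x]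
    exact forall_congr' fun k => by rw [aeval_eq_eval]
  -- continuity
  obtain ⟨δ₁, hδ₁, hδ₁1, hcont⟩ : ∃ δ : ℝ, 0 < δ ∧ δ ≤ 1 ∧ ∀ v w : Fin (n + 1) → F,
      (∀ i, T.absF (v i) ≤ 1) → (∀ i, T.absF (w i) ≤ 1) → (∀ i, T.absF (v i - w i) ≤ δ) →
      ∀ k, T.absK (aeval (fun i => T.sharp (v i)) (P k) - aeval (fun i => T.sharp (w i)) (P k)) ≤
        ε := by
    choose Bk hBk _ hB2 using fun k => lipschitz T.ultraK one_pos
      (MvPolynomial.map (algebraMap K C) (P k))
    set Bs : ℝ := 1 + ∑ k, Bk k with hBs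
    have hBs0 : 0 < Bs := by
      have : 0 ≤ ∑ k, Bk k := Finset.sum_nonneg fun k _ => (hBk k).le
      linarith
    have hBle : ∀ k, Bk k ≤ Bs := fun k => by
      have := Finset.single_le_sum (f := fun k => Bk k) (fun k _ => (hBk k).le)
        (Finset.mem_univ k)
      linarith
    obtain ⟨δ, hδ, hs⟩ := sharp_cont T (show 0 < ε / Bs by positivity)
    refine ⟨min δ 1, lt_min hδ one_pos, min_le_right _ _, fun v w hv hw hvw k => ?_⟩
    have h1 := hB2 k (fun i => T.sharp (v i)) (fun i => T.sharp (w i))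
      (fun i => by rw [T.abs_sharp]; exact hv i) (fun i => by rw [T.abs_sharp]; exact hw i)
      (ε / Bs) (by positivity) fun i => hs _ _ (hv i) (hw i) ((hvw i).trans (min_le_left _ _))
    rw [eval_map_alg, eval_map_alg] at h1
    refine h1.trans ?_
    calc Bk k * (ε / Bs) ≤ Bs * (ε / Bs) := mul_le_mul_of_nonneg_right (hBle k) (by positivity)
      _ = ε := by field_simp
  obtain ⟨η, hη, htube⟩ := tube T.ultraF G hδ₁
  obtain ⟨δ₂, hδ₂, hno⟩ := no_zero_near T.ultraF G q (fun v hv hvq => hq0 v (by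
    rw [hYset]
    exact hv) hvq)
  have hδ : 0 < min η δ₂ := lt_min hη hδ₂
  rw [hYset] at hYge
  obtain ⟨S', hS'h, hS'c, hS'd⟩ := dimGE_spec (L₀ := E') T.ultraF hdense G DG hGh hYge hδ
  have hz : IsZero F S' {x : Fin (n + 1) → F | ∀ k, aeval x (S' k) = 0} := fun y => Iff.rfl
  have hform : ∀ k, IsForm (S' k) := fun k => ⟨DG k, hDG k, hS'h k⟩
  have hcone := hz.cone hform
  have hsm : ∀ w ∈ {x : Fin (n + 1) → F | ∀ k, aeval x (S' k) = 0}, (∀ i, T.absF (w i) ≤ 1) →
      ∀ k, T.absF (eval w (G k)) ≤ min η δ₂ := by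
    intro w hw hw1 k
    have h1 := close_coeff T.ultraF hδ.le (hS'c k) hw1
    rw [eval_map_alg, hw k, sub_zero] at h1
    exact h1
  refine ⟨{x : Fin (n + 1) → F | ∀ k, aeval x (S' k) = 0}, hcone, hS'd, ⟨q, hq, fun w hw hwq => ?_⟩,
    fun w hw k => ?_⟩
  · by_contra hw0
    obtain ⟨b, hb, hb1, t, ht⟩ := normalise (a := T.absF) hw0
    have hbw := hcone.2 b w hw
    have h1 := hno (b • w) hb1 (fun k => (hsm _ hbw hb1 k).trans (min_le_right _ _)) (fun j => by
      obtain ⟨D, -, hD⟩ := hq j
      have h2 : eval (b • w) (q j) = 0 := by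
        have h3 := eval_smul_of_homogeneous hD b w
        have h4 : (fun i => b * w i) = b • w := rfl
        rw [h4] at h3
        rw [h3, hwq j, mul_zero]
      rw [h2, map_zero]
      exact hδ₂.le) t
    have h2 : T.absF ((b • w) t) = 1 := ht
    rw [h2] at h1
    exact lt_irrefl _ h1
  · refine inTube_of_small T.toTiltPair (hP k) hε (hPX k 0 hX0) fun b hb hb1 _ => ?_
    have hbw := hcone.2 b w hw
    obtain ⟨y, hy, hyw⟩ := htube (b • w) hb1 fun k => (hsm _ hbw hb1 k).trans (min_le_left _ _)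
    have hyY : y ∈ Y := by
      rw [hYset]
      exact hy
    have hy1 : ∀ i, T.absF (y i) ≤ 1 := by
      intro i
      have h1 : y i = (b • w) i - ((b • w) i - y i) := by ring
      rw [h1]
      exact (abs_sub_le' T.ultraF _ _).trans (max_le (hb1 i) ((hyw i).trans hδ₁1))
    have h2 := hcont (b • w) y hb1 hy1 hyw k
    have h3 := hYt y hyY k 1 hy1
    rw [one_pow, mul_one] at h3
    have h4 : aeval (fun i => T.sharp (b * w i)) (P k) =
        (aeval (fun i => T.sharp ((b • w) i)) (P k) - aeval (fun i => T.sharp (y i)) (P k)) +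
          aeval (fun i => T.sharp (y i)) (P k) := by
      rw [sub_add_cancel]
      rfl
    rw [h4]
    exact (T.ultraK _ _).trans (max_le h2 h3)

/-- **Q1 does not depend on the base field.** -/
theorem base_iff [IsAlgClosed C] [IsAlgClosed F] (T : Tilting p C F) (B : BaseField T K E)
    {E' : Type} [Field E'] [Algebra E' F] [Algebra E E'] [IsScalarTower E E' F]
    [Algebra.IsAlgebraic E E'] [IsAlgClosed E'] (hdense : IsDenseIn E' F T.absF)
    (hG : GaloisLift T.toTiltPair K E E') {n d : ℕ} {X : Set (Fin (n + 1) → C)}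
    (hX : IsConeOver K X) (hd : DimLEOver K X d) :
    Approximable T.toTiltPair K E X d ↔ Approximable T.toTiltPair C F X d := by
  constructor
  · intro hA
    have hne : X.Nonempty := nonempty_of_approximable T.toTiltPair hA
    obtain ⟨r, S, hS, hSX⟩ := exists_forms hX hne
    have h0 : (0 : Fin (n + 1) → C) ∈ X := IsConeOver.zero_mem hX hne
    obtain ⟨q, hq, hq0⟩ := hd
    refine approx_of_system T (baseField_self T)
      (S := fun k => MvPolynomial.map (algebraMap K C) (S k)) (fun x => ?_) h0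
      ⟨fun j => MvPolynomial.map (algebraMap K C) (q j), fun j => form_map (hq j), fun y hy hyq =>
        hq0 y hy fun j => ?_⟩ fun δ hδ => ?_
    · rw [hSX x]
      exact forall_congr' fun k => by rw [aeval_map_algebraMap]
    · have := hyq j
      rwa [aeval_map_algebraMap] at this
    · obtain ⟨W, a1, a2, -, a4⟩ := system_of_approx T.toTiltPair hS
        (fun x hx => (hSX x).1 hx) hA hδ
      refine ⟨W, isConeOver_up a1, a2, fun w hw hw1 k => ?_⟩
      rw [aeval_map_algebraMap]
      exact a4 w hw hw1 k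
  · intro hA
    have hne : X.Nonempty := nonempty_of_approximable T.toTiltPair hA
    have h0 : (0 : Fin (n + 1) → C) ∈ X := IsConeOver.zero_mem hX hne
    exact descent (K' := C) T B hG hX hd (approx_dense T hdense h0 hA)

end Pool.Agent.K7.H6.PT
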