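import Pool.Agent.K7.H6.PT.Jac
import Pool.Agent.K7.H6.PT.Move

/-!
# Smooth closed sets are limits of smooth closed sets over a dense subfield
-/

set_option autoImplicit false
set_option linter.unusedSectionVars false

namespace Pool.Agent.K7.H6.PT

open MvPolynomial Pool.Agent.Y129.TA Pool.Agent.X271.TQ
open Pool.Agent.Y129.TB (IsConeOver InTube Approximable DimLEOver form_map eval_map_alg BaseField)

section

variable {L₀ L : Type} [Field L₀] [Field L] [Algebra L₀ L] {a : AbsoluteValue L ℝ}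
  [IsAlgClosed L₀] [IsAlgClosed L]

theorem grad_smul {n : ℕ} {f : MvPolynomial (Fin (n + 1)) L} {D : ℕ} (hf : f.IsHomogeneous D)
    (b : L) (x : Fin (n + 1) → L) : grad f (b • x) = b ^ (D - 1) • grad f x := by
  funext i
  simp only [grad, Pi.smul_apply, smul_eq_mul]
  exact eval_smul_of_homogeneous (hf.pderiv) b x

/-- **Smooth closed sets over a dense algebraically closed subfield are dense.** -/
theorem smooth_spec (ha : ∀ x y, a (x + y) ≤ max (a x) (a y)) (hdense : IsDenseIn L₀ L a)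
    {n d : ℕ} {X : Set (Fin (n + 1) → L)} (hX : IsSmooth X d) {δ : ℝ} (hδ : 0 < δ) :
    ∃ X₀ : Set (Fin (n + 1) → L), IsConeOver L₀ X₀ ∧ IsIrr X₀ ∧ IsSmooth X₀ d ∧ DimGE X₀ d ∧
      Within a X₀ X δ := by
  classical
  obtain ⟨r, S, hS, hSI⟩ := exists_ideal_gens hX.cone.2 hX.ne
  have hSX : ∀ k, ∀ x ∈ X, eval x (S k) = 0 := fun k =>
    (hSI (S k)).2 (Ideal.subset_span ⟨k, rfl⟩)
  have hXS : ∀ x : Fin (n + 1) → L, (∀ k, eval x (S k) = 0) → x ∈ X := by
    intro x hx
    obtain ⟨J, hJ⟩ := hX.cone.1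
    rw [hJ, mem_zeroLocus_iff]
    intro f hf
    have h1 : f ∈ Ideal.span (Set.range S) := (hSI f).1 fun y hy => by
      rw [hJ] at hy
      have h2 := (mem_zeroLocus_iff.1 hy) f hf
      rwa [aeval_eq_eval] at h2
    have h2 : Ideal.span (Set.range S) ≤ RingHom.ker (eval x : MvPolynomial (Fin (n + 1)) L →+* L) := by
      rw [Ideal.span_le]
      rintro _ ⟨k, rfl⟩
      exact hx k
    rw [aeval_eq_eval]
    exact h2 h1
  have hXset : X = {x | ∀ k, eval x (S k) = 0} := by
    ext x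
    exact ⟨fun hx k => hSX k x hx, fun hx => hXS x hx⟩
  have hXge : DimGE X d := by
    obtain ⟨x, hx⟩ := hX.ne
    obtain ⟨Z, hZX, -, -, hZ⟩ := hX.pure x hx
    intro q hq
    obtain ⟨y, hy, h1⟩ := hZ q hq
    exact ⟨y, hZX hy, h1⟩
  obtain ⟨q, hq, hq0⟩ := hX.le
  set c := n - d with hc
  let τ : Type := (Fin c → Fin r) × (Fin c → Fin (n + 1))
  let mp : τ → MvPolynomial (Fin (n + 1)) L := fun t =>
    (Matrix.of fun i j => pderiv (t.2 j) (S (t.1 i))).det
  have hmp : ∀ t v, eval v (mp t) = (Matrix.of fun i j => eval v (pderiv (t.2 j) (S (t.1 i)))).det := by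
    intro t v
    simp only [mp]
    rw [RingHom.map_det]
    congr 1
  obtain ⟨δ₁, hδ₁, hno1⟩ := no_zero_near ha S mp (fun v hv hvm => by
    by_contra hv0
    have hvX := hXS v hv
    have h1 := hX.jac v hvX hv0
    have h2 : c ≤ Module.finrank L (Submodule.span L (Set.range fun k => grad (S k) v)) := by
      have h3 := Submodule.finrank_mono
        (conormal_le (fun P hP => (hSI P).1 hP) hSX hvX)
      omega
    obtain ⟨α, β, h3⟩ := minor_of_rank _ h2
    apply h3
    have h4 := hvm (α, β)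
    rw [hmp] at h4
    exact h4)
  obtain ⟨δ₂, hδ₂, hno2⟩ := no_zero_near ha S q (fun v hv hvq => hq0 v (hXS v hv) hvq)
  obtain ⟨η, hη, htube⟩ := tube ha S hδ
  -- bounds for the derivatives
  obtain ⟨R, hR1, hR⟩ : ∃ R : ℝ, 1 ≤ R ∧ ∀ (j : Fin (n + 1)) (k : Fin r) (v : Fin (n + 1) → L),
      (∀ i, a (v i) ≤ 1) → a (eval v (pderiv j (S k))) ≤ R := by
    choose Bk hBk hB2 _ using fun x : Fin (n + 1) × Fin r =>
      lipschitz ha one_pos (pderiv x.1 (S x.2))
    refine ⟨1 + ∑ x, Bk x, ?_, fun j k v hv => ?_⟩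
    · have : 0 ≤ ∑ x, Bk x := Finset.sum_nonneg fun x _ => (hBk x).le
      linarith
    · have h1 := Finset.single_le_sum (f := fun x => Bk x) (fun x _ => (hBk x).le)
        (Finset.mem_univ (j, k))
      have h2 := hB2 (j, k) v hv
      simp only at h1 h2
      linarith
  obtain ⟨B, hB, hdet⟩ := det_close ha c (zero_lt_one.trans_le hR1)
  set δ' : ℝ := min (min (min η δ₁) (min δ₂ 1)) (δ₁ / B) with hδ'
  have hδ'0 : 0 < δ' := lt_min (lt_min (lt_min hη hδ₁) (lt_min hδ₂ one_pos)) (by positivity)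
  have hle1 : δ' ≤ η := (min_le_left _ _).trans ((min_le_left _ _).trans (min_le_left _ _))
  have hle2 : δ' ≤ δ₁ := (min_le_left _ _).trans ((min_le_left _ _).trans (min_le_right _ _))
  have hle3 : δ' ≤ δ₂ := (min_le_left _ _).trans ((min_le_right _ _).trans (min_le_left _ _))
  have hle4 : δ' ≤ 1 := (min_le_left _ _).trans ((min_le_right _ _).trans (min_le_right _ _))
  have hle5 : B * δ' ≤ δ₁ := by
    have h1 : δ' ≤ δ₁ / B := min_le_right _ _
    calc B * δ' ≤ B * (δ₁ / B) := mul_le_mul_of_nonneg_left h1 hB.le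
      _ = δ₁ := by field_simp
  choose D hD hSD using hS
  rw [hXset] at hXge
  obtain ⟨S', hS'h, hS'c, hS'd⟩ := dimGE_spec (L₀ := L₀) ha hdense S D hSD hXge hδ'0
  have hform : ∀ k, IsForm (S' k) := fun k => ⟨D k, hD k, hS'h k⟩
  have hsm : ∀ w : Fin (n + 1) → L, (∀ k, aeval w (S' k) = 0) → (∀ i, a (w i) ≤ 1) →
      ∀ k, a (eval w (S k)) ≤ δ' := by
    intro w hw hw1 k
    have h1 := close_coeff ha hδ'0.le (hS'c k) hw1
    rw [eval_map_alg, hw k, sub_zero] at h1
    exact h1
  obtain ⟨P, hP, hge⟩ := exists_component hform hS'd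
  have hPp : P.IsPrime := hP.1.1
  set X₀ : Set (Fin (n + 1) → L) := zeroLocus L P with hX₀
  have hsub : ∀ x ∈ X₀, ∀ k, aeval x (S' k) = 0 := by
    intro x hx k
    exact (mem_zeroLocus_iff.1 hx) _ (hP.1.2 (Ideal.subset_span ⟨k, rfl⟩))
  have hcone : IsConeOver L₀ X₀ := minimal_cone (L := L) hform hP
  have hirr : IsIrr X₀ := ⟨isConeOver_up hcone, DimGE.nonempty hge, fun f g => prime_irr P f g⟩
  refine ⟨X₀, hcone, hirr, ⟨isConeOver_up hcone, DimGE.nonempty hge, ⟨q, hq, ?_⟩,
    fun x hx => ⟨X₀, le_rfl, hx, hirr, hge⟩, ?_⟩, hge, ?_⟩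
  · intro w hw hwq
    by_contra hw0
    obtain ⟨b, hb, hb1, t, ht⟩ := normalise (a := a) hw0
    have hbw := hcone.2 b w hw
    have h1 := hno2 (b • w) hb1 (fun k => (hsm _ (hsub _ hbw) hb1 k).trans hle3) (fun j => by
      obtain ⟨Dq, -, hDq⟩ := hq j
      have h2 : eval (b • w) (q j) = 0 := by
        have h3 := eval_smul_of_homogeneous hDq b w
        have h4 : (fun i => b * w i) = b • w := rfl
        rw [h4] at h3
        rw [h3, hwq j, mul_zero]
      rw [h2, map_zero]
      exact hδ₂.le) t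
    have h2 : a ((b • w) t) = 1 := ht
    rw [h2] at h1
    exact lt_irrefl _ h1
  · intro x hx hx0
    obtain ⟨b, hb, hb1, t, ht⟩ := normalise (a := a) hx0
    have hbx := hcone.2 b x hx
    obtain ⟨s, hs⟩ : ∃ s : τ, (Matrix.of fun i j =>
        grad (MvPolynomial.map (algebraMap L₀ L) (S' (s.1 i))) (b • x) (s.2 j)).det ≠ 0 := by
      by_contra hall
      push Not at hall
      have h1 := hno1 (b • x) hb1 (fun k => (hsm _ (hsub _ hbx) hb1 k).trans hle2) (fun s => by
        rw [hmp]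
        have hpc : ∀ i j, a (eval (b • x) (pderiv (s.2 j) (S (s.1 i))) -
            grad (MvPolynomial.map (algebraMap L₀ L) (S' (s.1 i))) (b • x) (s.2 j)) ≤ δ' :=
          fun i j => pderiv_close ha hδ'0.le (hS'c (s.1 i)) (s.2 j) hb1
        have h2 := hdet (Matrix.of fun i j => eval (b • x) (pderiv (s.2 j) (S (s.1 i))))
          (Matrix.of fun i j => grad (MvPolynomial.map (algebraMap L₀ L) (S' (s.1 i))) (b • x)
            (s.2 j)) (fun i j => hR _ _ _ hb1) (fun i j => by
              rw [Matrix.of_apply]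
              have h3 : grad (MvPolynomial.map (algebraMap L₀ L) (S' (s.1 i))) (b • x) (s.2 j) =
                  eval (b • x) (pderiv (s.2 j) (S (s.1 i))) -
                  (eval (b • x) (pderiv (s.2 j) (S (s.1 i))) -
                    grad (MvPolynomial.map (algebraMap L₀ L) (S' (s.1 i))) (b • x) (s.2 j)) := by
                ring
              rw [h3]
              exact (abs_sub_le' ha _ _).trans
                (max_le (hR _ _ _ hb1) ((hpc i j).trans (hle4.trans hR1)))) δ' hδ'0.le hpc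
        rw [hall s, sub_zero] at h2
        exact h2.trans hle5) t
      have h2 : a ((b • x) t) = 1 := ht
      rw [h2] at h1
      exact lt_irrefl _ h1
    have h1 := rank_of_minor (fun k => grad (MvPolynomial.map (algebraMap L₀ L) (S' k)) (b • x))
      hs (W := conormal X₀ x) (fun k => by
        rw [grad_smul ((hS'h k).map _)]
        refine Submodule.smul_mem _ _ (Submodule.subset_span ⟨_, fun y hy => ?_, rfl⟩)
        rw [eval_map_alg]
        exact hsub y hy k)
    omega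
  · intro x' hx' hx1
    obtain ⟨y, hy, hyx⟩ := htube x' hx1 fun k => (hsm _ (hsub _ hx') hx1 k).trans hle1
    exact ⟨y, hXS y hy, hyx⟩

end

variable {p : ℕ} [hp : Fact p.Prime] {C F : Type} [Field C] [Field F] [CharP F p]

/-- **Reduction to a dense subfield.** -/
theorem dense_main [IsAlgClosed C] [IsAlgClosed F] (T : Tilting p C F) {C₀ : Type} [Field C₀]
    [Algebra C₀ C] [IsAlgClosed C₀] (hdense : IsDenseIn C₀ C T.absK) {n d : ℕ}
    {X : Set (Fin (n + 1) → C)} (hX : IsSmooth X d) {δ₀ : ℝ} (hδ₀ : 0 < δ₀)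
    (h : ∀ X₀ : Set (Fin (n + 1) → C), IsConeOver C₀ X₀ → IsIrr X₀ → IsSmooth X₀ d →
      Within T.absK X₀ X δ₀ → Approximable T.toTiltPair C F X₀ d) :
    Approximable T.toTiltPair C F X d := by
  refine (limit T (baseField_self T) (K := C) (E := F) hX.cone hX.ne hX.le fun δ hδ => ?_).2
  obtain ⟨X₀, h1, h2, h3, h4, h5⟩ := smooth_spec T.ultraK hdense hX (lt_min hδ hδ₀)
  refine ⟨X₀, isConeOver_up h1, h4, h X₀ h1 h2 h3 fun x hx hx1 => ?_, fun x hx hx1 => ?_⟩
  · obtain ⟨y, hy, hxy⟩ := h5 x hx hx1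
    exact ⟨y, hy, fun i => (hxy i).trans (min_le_right _ _)⟩
  · obtain ⟨y, hy, hxy⟩ := h5 x hx hx1
    exact ⟨y, hy, fun i => (hxy i).trans (min_le_left _ _)⟩

end Pool.Agent.K7.H6.PT
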