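import Pool.Agent.K7.H6.PT.Comp
import Pool.Agent.K7.H6.PT.Sharp

/-!
# Smooth closed sets: the Jacobian criterion under perturbation
-/

set_option autoImplicit false
set_option linter.unusedSectionVars false

namespace Pool.Agent.K7.H6.PT

open MvPolynomial Pool.Agent.Y129.TA Pool.Agent.X271.TQ
open Pool.Agent.Y129.TB (IsConeOver InTube Approximable DimLEOver form_map eval_map_alg BaseField)

/-- The gradient of `P` at `x`. -/
noncomputable def grad {L ι : Type} [Field L] (P : MvPolynomial ι L) (x : ι → L) : ι → L :=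
  fun i => eval x (pderiv i P)

/-- The space spanned by the gradients at `x` of the polynomials which vanish on `X`. -/
def conormal {L ι : Type} [Field L] (X : Set (ι → L)) (x : ι → L) : Submodule L (ι → L) :=
  Submodule.span L {w | ∃ P : MvPolynomial ι L, (∀ y ∈ X, eval y P = 0) ∧ w = grad P x}

/-- `X` is the cone over a nonempty smooth closed subset of pure dimension `d` of the projective space of
dimension `n`: it is closed of dimension at most `d`, each point lies on an irreducible closed subset of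
dimension at least `d`, and the Jacobian criterion holds at all points. -/
structure IsSmooth {L : Type} [Field L] {n : ℕ} (X : Set (Fin (n + 1) → L)) (d : ℕ) : Prop where
  cone : IsClosedCone X
  ne : X.Nonempty
  le : DimLE X d
  pure : ∀ x ∈ X, ∃ Z ⊆ X, x ∈ Z ∧ IsIrr Z ∧ DimGE Z d
  jac : ∀ x ∈ X, x ≠ 0 → n ≤ d + Module.finrank L (conormal X x)

section lin

variable {L ι κ : Type} [Field L] [Fintype ι]

theorem minor_of_rank (v : κ → ι → L) {c : ℕ}
    (h : c ≤ Module.finrank L (Submodule.span L (Set.range v))) :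
    ∃ (α : Fin c → κ) (β : Fin c → ι), (Matrix.of fun i j => v (α i) (β j)).det ≠ 0 := by
  classical
  obtain ⟨f, hf, -, hli⟩ := Submodule.exists_fun_fin_finrank_span_eq L (Set.range v)
  choose α hα using hf
  let α' : Fin c → κ := fun i => α (Fin.castLE h i)
  have hli' : LinearIndependent L fun i => v (α' i) := by
    have h1 : (fun i => v (α' i)) = f ∘ Fin.castLE h := funext fun i => hα _
    rw [h1]
    exact hli.comp _ (Fin.castLE_injective h)
  let A : Matrix (Fin c) ι L := Matrix.of fun i j => v (α' i) j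
  have hrank : A.rank = c := by
    have h1 : LinearIndependent L A.row := hli'
    rw [h1.rank_matrix, Fintype.card_fin]
  rw [Matrix.rank_eq_finrank_span_cols] at hrank
  obtain ⟨g, hg, -, hgi⟩ := Submodule.exists_fun_fin_finrank_span_eq L (Set.range A.col)
  choose β hβ using hg
  let e : Fin c ≃ Fin (Module.finrank L (Submodule.span L (Set.range A.col))) :=
    finCongr hrank.symm
  refine ⟨α', fun j => β (e j), ?_⟩
  have h2 : LinearIndependent L (Matrix.of fun i j => v (α' i) (β (e j))).col := by
    have h3 : (Matrix.of fun i j => v (α' i) (β (e j))).col = g ∘ e := by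
      funext j
      rw [Function.comp, ← hβ (e j)]
      rfl
    rw [h3]
    exact hgi.comp _ e.injective
  rw [Matrix.linearIndependent_cols_iff_isUnit, Matrix.isUnit_iff_isUnit_det] at h2
  exact h2.ne_zero

theorem rank_of_minor (v : κ → ι → L) {c : ℕ} {α : Fin c → κ} {β : Fin c → ι}
    (h : (Matrix.of fun i j => v (α i) (β j)).det ≠ 0) {W : Submodule L (ι → L)}
    (hW : ∀ k, v k ∈ W) : c ≤ Module.finrank L W := by
  classical
  have h1 : LinearIndependent L (Matrix.of fun i j => v (α i) (β j)).row := by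
    rw [Matrix.linearIndependent_rows_iff_isUnit, Matrix.isUnit_iff_isUnit_det]
    exact isUnit_iff_ne_zero.2 h
  have h2 : LinearIndependent L fun i => v (α i) := by
    refine LinearIndependent.of_comp (LinearMap.funLeft L L β) ?_
    exact h1
  have h3 := finrank_span_eq_card h2
  rw [Fintype.card_fin] at h3
  rw [← h3]
  refine Submodule.finrank_mono (Submodule.span_le.2 ?_)
  rintro _ ⟨i, rfl⟩
  exact hW _

end lin

section gens

variable {L ι : Type} [Field L] [IsAlgClosed L] [Fintype ι]

/-- The ideal of a closed cone is generated by finitely many forms. -/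
theorem exists_ideal_gens {X : Set (ι → L)} (hc : ∀ a : L, ∀ y ∈ X, a • y ∈ X)
    (hne : X.Nonempty) : ∃ (r : ℕ) (S : Fin r → MvPolynomial ι L), (∀ k, IsForm (S k)) ∧
      ∀ P : MvPolynomial ι L, (∀ x ∈ X, eval x P = 0) ↔ P ∈ Ideal.span (Set.range S) := by
  classical
  have : Infinite L := IsAlgClosed.instInfinite
  have h0 : (0 : ι → L) ∈ X := by
    obtain ⟨y, hy⟩ := hne
    have h1 := hc 0 y hy
    rwa [zero_smul] at h1
  obtain ⟨T, hT⟩ := (isNoetherian_def.1 (inferInstance : IsNoetherian _ _))
    (vanishingIdeal L X : Ideal (MvPolynomial ι L))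
  have hmem : ∀ f : MvPolynomial ι L, f ∈ vanishingIdeal L X ↔ ∀ x ∈ X, eval x f = 0 := by
    intro f
    rw [mem_vanishingIdeal_iff]
    exact forall₂_congr fun x _ => by rw [aeval_eq_eval]
  have hTX : ∀ f ∈ T, ∀ x ∈ X, aeval x f = 0 := by
    intro f hf
    have h1 : f ∈ vanishingIdeal L X := by
      rw [← hT]
      exact Submodule.subset_span hf
    intro x hx
    rw [aeval_eq_eval]
    exact (hmem f).1 h1 x hx
  have hcomp : ∀ f ∈ T, ∀ m, ∀ x ∈ X, aeval x (homogeneousComponent m f) = 0 := fun f hf m x hx =>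
    Pool.Agent.R388.TP.component_zero hc (hTX f hf) m hx
  have hzero : ∀ f ∈ T, homogeneousComponent 0 f = 0 := by
    intro f hf
    have h1 := hcomp f hf 0 0 h0
    rw [homogeneousComponent_zero, aeval_C] at h1
    rw [homogeneousComponent_zero]
    have h2 : coeff 0 f = 0 := h1
    rw [h2, map_zero]
  let N := T.sup fun f => f.totalDegree
  let ix : Type := T × Fin (N + 1)
  let G0 : ix → MvPolynomial ι L := fun x => homogeneousComponent ((x.2 : ℕ) + 1) x.1.1
  let e := Fintype.equivFin ix
  refine ⟨Fintype.card ix, fun k => G0 (e.symm k), fun k => ⟨_, Nat.succ_pos _,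
    homogeneousComponent_isHomogeneous _ _⟩, fun P => ⟨fun hP => ?_, fun hP x hx => ?_⟩⟩
  · have h1 : P ∈ (vanishingIdeal L X : Ideal (MvPolynomial ι L)) := (hmem P).2 hP
    rw [← hT] at h1
    refine (Submodule.span_le.2 ?_ : Submodule.span (MvPolynomial ι L) (T : Set _) ≤
      Ideal.span (Set.range fun k => G0 (e.symm k))) h1
    intro f hf
    change f ∈ Ideal.span (Set.range fun k => G0 (e.symm k))
    rw [← sum_homogeneousComponent f, Finset.sum_range_succ', hzero f hf, add_zero]
    refine Ideal.sum_mem _ fun k hk => ?_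
    have hk' : k < f.totalDegree := Finset.mem_range.1 hk
    have hkN : k < N + 1 := by
      have : f.totalDegree ≤ N := Finset.le_sup (f := fun f => f.totalDegree) hf
      omega
    refine Ideal.subset_span ⟨e ⟨⟨f, hf⟩, ⟨k, hkN⟩⟩, ?_⟩
    change G0 (e.symm (e ⟨⟨f, hf⟩, ⟨k, hkN⟩⟩)) = _
    rw [e.symm_apply_apply]
  · have h1 : Ideal.span (Set.range fun k => G0 (e.symm k)) ≤
        RingHom.ker (eval x : MvPolynomial ι L →+* L) := by
      rw [Ideal.span_le]
      rintro _ ⟨k, rfl⟩
      change eval x (G0 (e.symm k)) = 0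
      rw [← aeval_eq_eval]
      exact hcomp _ (e.symm k).1.2 _ x hx
    exact h1 hP

/-- The gradients of generators of the ideal span the conormal space. -/
theorem conormal_le {κ : Type} [Fintype κ] {X : Set (ι → L)} {S : κ → MvPolynomial ι L}
    (hS : ∀ P : MvPolynomial ι L, (∀ x ∈ X, eval x P = 0) → P ∈ Ideal.span (Set.range S))
    (hSX : ∀ k, ∀ x ∈ X, eval x (S k) = 0) {x : ι → L} (hx : x ∈ X) :
    conormal X x ≤ Submodule.span L (Set.range fun k => grad (S k) x) := by
  classical
  refine Submodule.span_le.2 ?_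
  rintro _ ⟨P, hP, rfl⟩
  obtain ⟨c, hc⟩ := (Ideal.mem_span_range_iff_exists_fun).1 (hS P hP)
  have h1 : grad P x = ∑ k, eval x (c k) • grad (S k) x := by
    funext i
    rw [Finset.sum_apply]
    simp only [grad, Pi.smul_apply, smul_eq_mul]
    rw [← hc, map_sum, map_sum]
    refine Finset.sum_congr rfl fun k _ => ?_
    rw [Derivation.leibniz, map_add, smul_eq_mul, smul_eq_mul, map_mul, map_mul, hSX k x hx,
      zero_mul, add_zero]
  rw [h1]
  exact Submodule.sum_mem _ fun k _ => Submodule.smul_mem _ _ (Submodule.subset_span ⟨k, rfl⟩)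

end gens

section perturb

variable {L : Type} [Field L] {a : AbsoluteValue L ℝ} {ι : Type} [Fintype ι]

/-- Derivatives of polynomials with close coefficients are close on the unit ball. -/
theorem pderiv_close (ha : ∀ x y, a (x + y) ≤ max (a x) (a y)) {f g : MvPolynomial ι L} {δ : ℝ}
    (hδ : 0 ≤ δ) (h : ∀ m, a (coeff m f - coeff m g) ≤ δ) (i : ι) {v : ι → L}
    (hv : ∀ i, a (v i) ≤ 1) : a (eval v (pderiv i f) - eval v (pderiv i g)) ≤ δ := by
  classical
  rw [← map_sub, ← map_sub]
  rw [(f - g).as_sum, map_sum, map_sum]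
  refine ultra_sum' ha _ _ hδ fun m _ => ?_
  rw [pderiv_monomial, eval_monomial, map_mul, map_mul, coeff_sub]
  have h1 : a ((m i : ℕ) : L) ≤ 1 := abs_nat_le ha _
  have h2 : a ((m - Finsupp.single i 1).prod fun j e => v j ^ e) ≤ 1 := by
    rw [Finsupp.prod_fintype _ _ (fun j => pow_zero _), map_prod]
    refine Finset.prod_le_one (fun i _ => a.nonneg _) fun i _ => ?_
    rw [map_pow]
    exact pow_le_one₀ (a.nonneg _) (hv i)
  calc a (coeff m f - coeff m g) * a ((m i : ℕ) : L) *
        a ((m - Finsupp.single i 1).prod fun j e => v j ^ e) ≤ δ * 1 * 1 :=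
        mul_le_mul (mul_le_mul (h m) h1 (a.nonneg _) hδ) h2 (a.nonneg _) (by positivity)
    _ = δ := by ring

/-- Determinants of close matrices are close. -/
theorem det_close (ha : ∀ x y, a (x + y) ≤ max (a x) (a y)) (c : ℕ) {R : ℝ} (hR : 0 < R) :
    ∃ B : ℝ, 0 < B ∧ ∀ A A' : Matrix (Fin c) (Fin c) L, (∀ i j, a (A i j) ≤ R) →
      (∀ i j, a (A' i j) ≤ R) → ∀ r : ℝ, 0 ≤ r → (∀ i j, a (A i j - A' i j) ≤ r) →
        a (A.det - A'.det) ≤ B * r := by
  classical
  let D : MvPolynomial (Fin c × Fin c) L := (Matrix.of fun i j => (X (i, j) :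
    MvPolynomial (Fin c × Fin c) L)).det
  have hD : ∀ A : Matrix (Fin c) (Fin c) L, eval (fun x => A x.1 x.2) D = A.det := by
    intro A
    simp only [D]
    rw [RingHom.map_det]
    congr 1
    ext i j
    simp
  obtain ⟨B, hB, -, h⟩ := lipschitz ha hR D
  refine ⟨B, hB, fun A A' hA hA' r hr hAA => ?_⟩
  rw [← hD A, ← hD A']
  exact h _ _ (fun x => hA x.1 x.2) (fun x => hA' x.1 x.2) r hr fun x => hAA x.1 x.2

end perturb

end Pool.Agent.K7.H6.PT
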