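import Pool.Agent.K7.H6.PT.Sharp
import Pool.Agent.K7.H6.PT.Family
import Pool.Agent.X271.TqPull

/-!
# The precision of the approximation along the Kummer tower
-/

set_option autoImplicit false
set_option linter.unusedSectionVars false

namespace Pool.Agent.K7.H6.PT

open MvPolynomial Pool.Agent.Y129.TA Pool.Agent.X271.TQ
open Pool.Agent.Y129.TB (IsConeOver InTube Approximable DimLEOver form_map eval_map_alg BaseField)
open Pool.Agent.R388.TP (powPreimage approximable_pow nonempty_of_approximable)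

section contract

variable {L : Type} [Field L] {a : AbsoluteValue L ℝ}

theorem pow_pow_sub_le_max (ha : ∀ x y, a (x + y) ≤ max (a x) (a y)) {p : ℕ} (hp : p.Prime)
    {r : ℝ} {u v : L} (hu : a u ≤ 1) (hv : a v ≤ 1) (huv : a (u - v) ≤ r)
    (j : ℕ) : a (u ^ p ^ j - v ^ p ^ j) ≤ max (r ^ p ^ j) (a (p : L)) := by
  have hr0 : 0 ≤ r := (a.nonneg _).trans huv
  induction j with
  | zero => rw [pow_zero, pow_one, pow_one, pow_one]; exact huv.trans (le_max_left _ _)
  | succ j ih =>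
    rw [pow_succ p j, pow_mul, pow_mul, pow_mul r]
    set w := a (u ^ p ^ j - v ^ p ^ j) with hw
    have hw0 : 0 ≤ w := a.nonneg _
    have hw1 : w ≤ 1 := (abs_sub_le' ha _ _).trans (max_le
      (by rw [map_pow]; exact pow_le_one₀ (a.nonneg _) hu)
      (by rw [map_pow]; exact pow_le_one₀ (a.nonneg _) hv))
    have h2 : a ((u ^ p ^ j) ^ p - (v ^ p ^ j) ^ p) ≤ max (w ^ p) (a (p : L)) := by
      set u' := u ^ p ^ j with hu'
      set v' := v ^ p ^ j with hv'
      have hv1 : a v' ≤ 1 := by rw [hv', map_pow a]; exact pow_le_one₀ (a.nonneg _) hv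
      have h1 : u' ^ p - v' ^ p = (u' - v') ^ p + (p : L) * ∑ k ∈ Finset.Ioo 0 p,
          v' ^ k * (u' - v') ^ (p - k) * ((p.choose k / p : ℕ) : L) := by
        have h2 : u' = v' + (u' - v') := by ring
        conv_lhs => rw [h2, add_pow_prime_eq' hp]
        ring
      rw [h1]
      refine (ha _ _).trans (max_le_max (by rw [map_pow]) ?_)
      rw [map_mul]
      refine mul_le_of_le_one_right (a.nonneg _) ?_
      refine ultra_sum' ha _ _ zero_le_one fun k hk => ?_
      have e1 : a (v' ^ k) ≤ 1 := by rw [map_pow a]; exact pow_le_one₀ (a.nonneg _) hv1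
      have e2 : a ((u' - v') ^ (p - k)) ≤ 1 := by
        rw [map_pow a]; exact pow_le_one₀ (a.nonneg _) hw1
      rw [map_mul, map_mul]
      exact mul_le_one₀ (mul_le_one₀ e1 (a.nonneg _) e2) (a.nonneg _) (abs_nat_le ha _)
    refine h2.trans (max_le ?_ (le_max_right _ _))
    rcases le_max_iff.1 ih with h | h
    · exact (pow_le_pow_left₀ hw0 h _).trans (le_max_left _ _)
    · exact ((pow_le_of_le_one hw0 hw1 hp.ne_zero).trans h).trans (le_max_right _ _)

/-- If `r ^ (p ^ M)` is small then the `p ^ M`-th powers of two points at distance at most `r` are at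
small distance. -/
theorem contract (ha : ∀ x y, a (x + y) ≤ max (a x) (a y)) {p : ℕ} (hp : p.Prime)
    (hp0 : (p : L) ≠ 0) (hp1 : a (p : L) < 1) {δ : ℝ} (hδ : 0 < δ) :
    ∃ ε : ℝ, 0 < ε ∧ ∀ (M : ℕ) (r : ℝ) (u v : L), r ^ p ^ M ≤ ε → a u ≤ 1 → a v ≤ 1 →
      a (u - v) ≤ r → a (u ^ p ^ M - v ^ p ^ M) ≤ δ := by
  have hap : 0 < a (p : L) := a.pos hp0
  obtain ⟨N, hN⟩ := exists_pow_lt_of_lt_one (lt_min hδ one_pos) hp1
  have hm0 : 0 < min δ 1 := lt_min hδ one_pos
  have hm1 : min δ 1 ≤ 1 := min_le_right _ _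
  refine ⟨min ((min δ 1) ^ p ^ N) (a (p : L) ^ p ^ N), lt_min (by positivity) (by positivity),
    fun M r u v hr hu hv huv => ?_⟩
  have hr0 : 0 ≤ r := (a.nonneg _).trans huv
  rcases le_total M N with hMN | hMN
  · have h1 : r ^ p ^ M ≤ (min δ 1) ^ p ^ M :=
      (hr.trans (min_le_left _ _)).trans (pow_le_pow_of_le_one hm0.le hm1
        (Nat.pow_le_pow_right hp.pos hMN))
    have h2 : r ≤ min δ 1 := le_of_pow_le_pow_left₀ (pow_pos hp.pos M).ne' hm0.le h1
    have h3 := pow_pow_sub_le ha hp (ρ := 1) (r := min δ 1) hm1 hp1.le le_rfl hu hv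
      (huv.trans h2) M
    rw [one_pow, one_mul] at h3
    exact h3.trans (min_le_left _ _)
  · obtain ⟨j, rfl⟩ := Nat.exists_eq_add_of_le hMN
    have h1 : r ^ p ^ j ≤ a (p : L) := by
      have h2 : (r ^ p ^ j) ^ p ^ N ≤ a (p : L) ^ p ^ N := by
        rw [← pow_mul, ← pow_add, add_comm j N]
        exact hr.trans (min_le_right _ _)
      exact le_of_pow_le_pow_left₀ (pow_pos hp.pos N).ne' hap.le h2
    have h2 := (pow_pow_sub_le_max ha hp hu hv huv j).trans (max_le h1 le_rfl)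
    have h3 := pow_pow_sub_le ha hp (le_refl (a (p : L))) le_rfl hp1.le
      (by rw [map_pow]; exact pow_le_one₀ (a.nonneg _) hu : a (u ^ p ^ j) ≤ 1)
      (by rw [map_pow]; exact pow_le_one₀ (a.nonneg _) hv : a (v ^ p ^ j) ≤ 1) h2 N
    rw [← pow_mul, ← pow_mul, ← pow_add, add_comm j N] at h3
    refine h3.trans ?_
    calc a (p : L) ^ N * a (p : L) ≤ a (p : L) ^ N * 1 :=
          mul_le_mul_of_nonneg_left hp1.le (by positivity)
      _ ≤ δ := by rw [mul_one]; exact hN.le.trans (min_le_left _ _)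

end contract

variable {p : ℕ} [hp : Fact p.Prime] {C F K E : Type} [Field C] [Field F] [CharP F p] [Field K]
  [Field E] [Algebra K C] [Algebra E F]

/-- For every point `y` of `Y` in the unit ball, `y♯` is at distance at most `r` from a point of `X`. -/
def SharpWithin {ι : Type} (T : TiltPair p C F) (Y : Set (ι → F)) (X : Set (ι → C)) (r : ℝ) : Prop :=
  ∀ y ∈ Y, (∀ i, T.absF (y i) ≤ 1) → ∃ x ∈ X, ∀ i, T.absK (T.sharp (y i) - x i) ≤ r

/-- There is a closed `Y` of dimension `d`, defined over `E`, at distance at most `r` from `X`. -/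
def HasApprox {ι : Type} (T : TiltPair p C F) (E : Type) [Field E] [Algebra E F]
    (X : Set (ι → C)) (d : ℕ) (r : ℝ) : Prop :=
  ∃ Y : Set (ι → F), IsConeOver E Y ∧ DimGE Y d ∧ DimLE Y d ∧ SharpWithin T Y X r

/-- Q1 in terms of distances. -/
theorem hasApprox_of_approximable [IsAlgClosed C] [IsAlgClosed F] (T : Tilting p C F)
    {n d : ℕ} {X : Set (Fin (n + 1) → C)} (hX : IsConeOver K X)
    (hA : Approximable T.toTiltPair K E X d) {r : ℝ} (hr : 0 < r) :
    HasApprox T.toTiltPair E X d r := by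
  have hne := nonempty_of_approximable T.toTiltPair hA
  obtain ⟨s, S, hS, hSX⟩ := exists_forms hX hne
  obtain ⟨η, hη, h1⟩ := tube T.ultraK (fun k => MvPolynomial.map (algebraMap K C) (S k)) hr
  obtain ⟨W, a1, a2, a3, a4⟩ := system_of_approx T.toTiltPair hS (fun x hx => (hSX x).1 hx) hA hη
  refine ⟨W, a1, a2, a3, fun w hw hw1 => ?_⟩
  obtain ⟨x, hx, hxw⟩ := h1 (fun i => T.sharp (w i)) (fun i => by rw [T.abs_sharp]; exact hw1 i)
    fun k => by rw [eval_map_alg]; exact a4 w hw hw1 k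
  exact ⟨x, (hSX x).2 fun k => by rw [← eval_map_alg]; exact hx k, hxw⟩

/-- The image of a closed set under a power of the Frobenius map. -/
theorem frob_image [CharP E p] [IsAlgClosed F] {ι : Type} [Fintype ι] {Y : Set (ι → F)} {d : ℕ}
    (hY : IsConeOver E Y) (hd : DimGE Y d) (M : ℕ) :
    IsConeOver E {w : ι → F | ∃ y ∈ Y, ∀ i, w i = y i ^ p ^ M} ∧
      DimGE {w : ι → F | ∃ y ∈ Y, ∀ i, w i = y i ^ p ^ M} d := by
  classical
  have hpM : 0 < p ^ M := pow_pos hp.out.pos M
  obtain ⟨r, G, hG, hGY⟩ := exists_forms hY (DimGE.nonempty hd)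
  have key : ∀ (f : MvPolynomial ι E) (y : ι → F), aeval (fun i => y i ^ p ^ M)
      (MvPolynomial.map (iterateFrobenius E p M) f) = (aeval y f) ^ p ^ M := by
    intro f y
    have h1 : ((aeval (fun i => y i ^ p ^ M) : MvPolynomial ι E →ₐ[E] F).toRingHom).comp
        (MvPolynomial.map (iterateFrobenius E p M)) =
          (iterateFrobenius F p M).comp (aeval y : MvPolynomial ι E →ₐ[E] F).toRingHom := by
      refine MvPolynomial.ringHom_ext (fun c => ?_) fun i => ?_
      · change aeval (fun i => y i ^ p ^ M) (MvPolynomial.map (iterateFrobenius E p M)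
          (MvPolynomial.C c)) = iterateFrobenius F p M (aeval y (MvPolynomial.C c))
        rw [map_C, aeval_C, aeval_C, iterateFrobenius_def, iterateFrobenius_def, map_pow]
      · change aeval (fun i => y i ^ p ^ M) (MvPolynomial.map (iterateFrobenius E p M)
          (MvPolynomial.X i)) = iterateFrobenius F p M (aeval y (MvPolynomial.X i))
        rw [map_X, aeval_X, aeval_X, iterateFrobenius_def]
    have h2 := congrArg (fun χ : MvPolynomial ι E →+* F => χ f) h1
    exact h2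
  have hz : IsZero F (fun k => MvPolynomial.map (iterateFrobenius E p M) (G k))
      {w : ι → F | ∃ y ∈ Y, ∀ i, w i = y i ^ p ^ M} := by
    intro w
    constructor
    · rintro ⟨y, hy, hw⟩ k
      have h1 : w = fun i => y i ^ p ^ M := funext hw
      rw [h1, key, (hGY y).1 hy k, zero_pow hpM.ne']
    · intro hw
      choose y hy using fun i => IsAlgClosed.exists_pow_nat_eq (w i) hpM
      refine ⟨y, (hGY y).2 fun k => ?_, fun i => (hy i).symm⟩
      have h1 : w = fun i => y i ^ p ^ M := funext fun i => (hy i).symm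
      have h2 := hw k
      rw [h1, key] at h2
      exact pow_eq_zero_iff hpM.ne' |>.1 h2
  refine ⟨hz.cone fun k => ?_, fun q hq => ?_⟩
  · obtain ⟨D, hD, h⟩ := hG k
    exact ⟨D, hD, h.map _⟩
  · obtain ⟨y, hy, hy0, hyq⟩ := hd (fun j => pl (p ^ M) (q j)) fun j => pl_form hpM (hq j)
    refine ⟨fun i => y i ^ p ^ M, ⟨y, hy, fun i => rfl⟩, fun h0 => hy0 ?_, fun j => ?_⟩
    · funext i
      exact pow_eq_zero_iff hpM.ne' |>.1 (congrFun h0 i)
    · have h1 := hyq j
      rw [← aeval_eq_eval, aeval_pl, aeval_eq_eval] at h1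
      exact h1

/-- **The precision of the approximation.** -/
theorem approximable_of_tower [CharP E p] [IsAlgClosed C] [IsAlgClosed F] (T : Tilting p C F)
    (B : BaseField T K E) {n d : ℕ} {X : Set (Fin (n + 1) → C)} (hX : IsConeOver K X)
    (hne : X.Nonempty) (hd : DimLEOver K X d)
    (h : ∀ ε : ℝ, 0 < ε → ∃ (M : ℕ) (r : ℝ), r ^ p ^ M ≤ ε ∧
      HasApprox T.toTiltPair E (powPreimage (p ^ M) X) d r) :
    Approximable T.toTiltPair K E X d := by
  classical
  obtain ⟨s, S, hS, hSX⟩ := exists_forms hX hne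
  have hSX' : ∀ x ∈ X, ∀ k, eval x (MvPolynomial.map (algebraMap K C) (S k)) = 0 := by
    intro x hx k
    rw [eval_map_alg]
    exact (hSX x).1 hx k
  have h0 : (0 : Fin (n + 1) → C) ∈ X := IsConeOver.zero_mem hX hne
  refine approx_of_system T B hSX h0 hd fun δ hδ => ?_
  obtain ⟨δ', hδ', hδ1, h2⟩ := small_near T.ultraK
    (fun k => MvPolynomial.map (algebraMap K C) (S k)) hSX' hδ
  obtain ⟨ε, hε, hc⟩ := contract T.ultraK hp.out T.p_ne T.p_lt (a := T.absK) hδ'
  obtain ⟨M, r, hr', Y, hY1, hY2, -, hY4⟩ := h (min ε (1 / 2)) (lt_min hε (by norm_num))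
  have hr := hr'.trans (min_le_left _ _)
  have hpM : 0 < p ^ M := pow_pos hp.out.pos M
  obtain ⟨hW1, hW2⟩ := frob_image (p := p) hY1 hY2 M
  refine ⟨_, hW1, hW2, ?_⟩
  rintro w ⟨y, hy, hw⟩ hw1 k
  have hy1 : ∀ i, T.absF (y i) ≤ 1 := by
    intro i
    have h3 := hw1 i
    rw [hw i, map_pow] at h3
    exact (pow_le_one_iff_of_nonneg (T.absF.nonneg _) hpM.ne').1 h3
  obtain ⟨x, hx, hxy⟩ := hY4 y hy hy1
  have hr0 : 0 ≤ r := (T.absK.nonneg _).trans (hxy 0)
  have hr1 : r ≤ 1 := by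
    by_contra hr1
    push Not at hr1
    have h3 := hr'.trans (min_le_right _ _)
    have h4 : 1 ≤ r ^ p ^ M := one_le_pow₀ hr1.le
    linarith
  have hx1 : ∀ i, T.absK (x i) ≤ 1 := by
    intro i
    have h4 : x i = T.sharp (y i) - (T.sharp (y i) - x i) := by ring
    rw [h4]
    exact (abs_sub_le' T.ultraK _ _).trans
      (max_le (by rw [T.abs_sharp]; exact hy1 i) ((hxy i).trans hr1))
  have h5 := h2 (fun i => T.sharp (w i)) (fun i => by rw [T.abs_sharp]; exact hw1 i)
    ⟨fun i => x i ^ p ^ M, hx, fun i => by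
      simp only [hw i, map_pow]
      exact hc M r _ _ hr (by rw [T.abs_sharp]; exact hy1 i) (hx1 i) (hxy i)⟩ k
  rwa [eval_map_alg] at h5

/-- Q1 and the precision of the approximation of the Kummer coverings. -/
theorem tower_tfae [CharP E p] [IsAlgClosed C] [IsAlgClosed F] (T : Tilting p C F)
    (B : BaseField T K E) {n d : ℕ} {X : Set (Fin (n + 1) → C)} (hX : IsConeOver K X)
    (hne : X.Nonempty) (hd : DimLEOver K X d) : List.TFAE [Approximable T.toTiltPair K E X d,
      ∀ (M : ℕ) (r : ℝ), 0 < r → HasApprox T.toTiltPair E (powPreimage (p ^ M) X) d r,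
      ∃ r : ℝ, r < 1 ∧ ∀ M₀ : ℕ, ∃ M ≥ M₀, HasApprox T.toTiltPair E (powPreimage (p ^ M) X) d r,
      ∀ ε : ℝ, 0 < ε → ∃ (M : ℕ) (r : ℝ), r ^ p ^ M ≤ ε ∧
        HasApprox T.toTiltPair E (powPreimage (p ^ M) X) d r] := by
  tfae_have 1 → 2 := by
    intro hA M r hr
    obtain ⟨h1, -, h3⟩ := approximable_pow (K := K) (E := E) T (pow_pos hp.out.pos M) hX hA
    exact hasApprox_of_approximable T h1 h3 hr
  tfae_have 2 → 3 := fun h => ⟨1 / 2, by norm_num, fun M₀ => ⟨M₀, le_rfl, h M₀ _ (by norm_num)⟩⟩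
  tfae_have 3 → 4 := by
    rintro ⟨r, hr1, h⟩ ε hε
    have hm0 : 0 ≤ max r 0 := le_max_right _ _
    have hm1 : max r 0 < 1 := max_lt hr1 one_pos
    obtain ⟨M₀, hM₀⟩ := exists_pow_lt_of_lt_one hε hm1
    obtain ⟨M, hM, Y, h1, h2, h3, h4⟩ := h M₀
    refine ⟨M, max r 0, ?_, Y, h1, h2, h3, fun y hy hy1 => ?_⟩
    · refine (pow_le_pow_of_le_one hm0 hm1.le ?_).trans hM₀.le
      exact hM.trans (Nat.lt_pow_self hp.out.one_lt).le
    · obtain ⟨x, hx, hxy⟩ := h4 y hy hy1
      exact ⟨x, hx, fun i => (hxy i).trans (le_max_left _ _)⟩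
  tfae_have 4 → 1 := fun h => approximable_of_tower T B hX hne hd h
  tfae_finish

end Pool.Agent.K7.H6.PT
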