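import Pool.Agent.K7.H6.PT.Tube
import Pool.Agent.X271.TqOps
import Pool.Agent.R388.TP.Kummer

/-!
# Limits of approximable varieties
-/

set_option autoImplicit false
set_option linter.unusedSectionVars false

namespace Pool.Agent.K7.H6.PT

open MvPolynomial Pool.Agent.Y129.TA Pool.Agent.X271.TQ
open Pool.Agent.Y129.TB (IsConeOver InTube Approximable DimLEOver form_map eval_map_alg BaseField)

/-- Every point of the unit ball of the cone `X'` is at distance at most `δ` from a point of the cone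
`X`. -/
def Within {C ι : Type} [Field C] (a : AbsoluteValue C ℝ) (X' X : Set (ι → C)) (δ : ℝ) : Prop :=
  ∀ x' ∈ X', (∀ i, a (x' i) ≤ 1) → ∃ x ∈ X, ∀ i, a (x' i - x i) ≤ δ

section General

variable {C : Type} [Field C] {a : AbsoluteValue C ℝ} {ι κ : Type} [Fintype ι] [Fintype κ]

/-- On the points near `X` the equations of `X` are small. -/
theorem small_near (ha : ∀ x y, a (x + y) ≤ max (a x) (a y)) (S : κ → MvPolynomial ι C)
    {X : Set (ι → C)} (hX : ∀ x ∈ X, ∀ k, eval x (S k) = 0) {η : ℝ} (hη : 0 < η) :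
    ∃ δ : ℝ, 0 < δ ∧ δ ≤ 1 ∧ ∀ v : ι → C, (∀ i, a (v i) ≤ 1) →
      (∃ x ∈ X, ∀ i, a (v i - x i) ≤ δ) → ∀ k, a (eval v (S k)) ≤ η := by
  classical
  choose B hB hB1 hB2 using fun k => lipschitz ha one_pos (S k)
  set Bs : ℝ := 1 + ∑ k, B k with hBs
  have hBs0 : 0 < Bs := by
    have : 0 ≤ ∑ k, B k := Finset.sum_nonneg fun k _ => (hB k).le
    linarith
  have hBk : ∀ k, B k ≤ Bs := fun k => by
    have := Finset.single_le_sum (f := fun k => B k) (fun k _ => (hB k).le) (Finset.mem_univ k)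
    linarith
  refine ⟨min 1 (η / Bs), lt_min one_pos (by positivity), min_le_left _ _, ?_⟩
  rintro v hv ⟨x, hx, hvx⟩ k
  have hx1 : ∀ i, a (x i) ≤ 1 := by
    intro i
    have h1 : x i = v i - (v i - x i) := by ring
    rw [h1]
    exact (abs_sub_le' ha _ _).trans (max_le (hv i) ((hvx i).trans (min_le_left _ _)))
  have h2 := hB2 k v x hv hx1 _ (lt_min one_pos (by positivity)).le hvx
  rw [hX x hx k, sub_zero] at h2
  refine h2.trans ?_
  calc B k * min 1 (η / Bs) ≤ Bs * (η / Bs) :=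
        mul_le_mul (hBk k) (min_le_right _ _) (lt_min one_pos (by positivity)).le hBs0.le
    _ = η := by field_simp

/-- normalisation of a nonzero vector -/
theorem normalise [Nonempty ι] {w : ι → C} (hw : w ≠ 0) :
    ∃ b : C, b ≠ 0 ∧ (∀ i, a (b * w i) ≤ 1) ∧ ∃ i, a (b * w i) = 1 := by
  obtain ⟨t, ht⟩ := Finite.exists_max fun i => a (w i)
  have h1 : w t ≠ 0 := by
    intro h0
    apply hw
    funext i
    have h2 := ht i
    rw [h0, map_zero] at h2
    exact (a.eq_zero).1 (le_antisymm h2 (a.nonneg _))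
  have h2 : 0 < a (w t) := a.pos h1
  refine ⟨(w t)⁻¹, inv_ne_zero h1, fun i => ?_, t, ?_⟩
  · rw [map_mul, map_inv₀, inv_mul_eq_div]
    exact div_le_one_of_le₀ (ht i) h2.le
  · rw [inv_mul_cancel₀ h1, map_one]

/-- If the forms `q` have no common zero on `V(S)` then they have no common zero on the sets where the
`S k` are small. -/
theorem no_zero_near [IsAlgClosed C] (ha : ∀ x y, a (x + y) ≤ max (a x) (a y)) {τ : Type}
    [Fintype τ] (S : κ → MvPolynomial ι C) (q : τ → MvPolynomial ι C)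
    (h0 : ∀ v : ι → C, (∀ k, eval v (S k) = 0) → (∀ j, eval v (q j) = 0) → v = 0) :
    ∃ δ : ℝ, 0 < δ ∧ ∀ v : ι → C, (∀ i, a (v i) ≤ 1) → (∀ k, a (eval v (S k)) ≤ δ) →
      (∀ j, a (eval v (q j)) ≤ δ) → ∀ i, a (v i) < 1 := by
  classical
  have s1 : ∀ t : ι, ∃ δ : ℝ, 0 < δ ∧ ∀ v : ι → C, (∀ i, a (v i) ≤ 1) →
      (∀ k, a (eval v (Sum.elim S q k)) ≤ δ) → a (eval v (X t)) ≤ 1 / 2 := by
    intro t
    refine small ha _ _ (fun v hv => ?_) (by norm_num)
    rw [h0 v (fun k => hv (Sum.inl k)) (fun j => hv (Sum.inr j)), eval_X]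
    rfl
  choose δ₁ hδ₁ h1 using s1
  obtain ⟨δ, hδ, hδ'⟩ := exists_pos_le δ₁ hδ₁
  refine ⟨δ, hδ, fun v hv hS hq t => ?_⟩
  have h2 := h1 t v hv (by
    rintro (k | j)
    · exact (hS k).trans (hδ' t)
    · exact (hq j).trans (hδ' t))
  rw [eval_X] at h2
  linarith

end General

variable {p : ℕ} [hp : Fact p.Prime] {C F K E : Type} [Field C] [Field F] [CharP F p] [Field K]
  [Field E] [Algebra K C] [Algebra E F]

/-- **Limits.** -/
theorem limit [IsAlgClosed C] [IsAlgClosed F] (T : Tilting p C F) (B : BaseField T K E) {n d : ℕ}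
    {X : Set (Fin (n + 1) → C)} (hX : IsConeOver K X) (hne : X.Nonempty) (hd : DimLEOver K X d)
    (hlim : ∀ δ : ℝ, 0 < δ → ∃ X' : Set (Fin (n + 1) → C), IsConeOver K X' ∧ DimGE X' d ∧
      Approximable T.toTiltPair K E X' d ∧ Within T.absK X' X δ) :
    DimGE X d ∧ Approximable T.toTiltPair K E X d := by
  classical
  obtain ⟨r, S, hS, hSX⟩ := exists_forms hX hne
  have hSX' : ∀ x ∈ X, ∀ k, eval x (MvPolynomial.map (algebraMap K C) (S k)) = 0 := by
    intro x hx k
    rw [eval_map_alg]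
    exact (hSX x).1 hx k
  refine ⟨fun q hq => ?_, ?_⟩
  · by_contra hno
    push Not at hno
    obtain ⟨δ, hδ, h1⟩ := no_zero_near T.ultraK (fun k => MvPolynomial.map (algebraMap K C) (S k)) q
      (fun v hv hvq => by
        by_contra hv0
        obtain ⟨j, hj⟩ := hno v ((hSX v).2 fun k => by rw [← eval_map_alg]; exact hv k) hv0
        exact hj (hvq j))
    obtain ⟨δ', hδ', -, h2⟩ := small_near T.ultraK
      (fun k => MvPolynomial.map (algebraMap K C) (S k)) hSX' hδ
    obtain ⟨X', h3, h4, -, h5⟩ := hlim δ' hδ'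
    obtain ⟨x', hx', hx0, hxq⟩ := h4 q hq
    obtain ⟨b, hb, hb1, t, ht⟩ := normalise (a := T.absK) hx0
    have hbx := h3.2 b x' hx'
    have h6 := h1 (b • x') hb1 (h2 (b • x') hb1 (h5 _ hbx hb1)) (fun j => by
      obtain ⟨D, -, hD⟩ := hq j
      have h7 : eval (b • x') (q j) = 0 := by
        have h8 := eval_smul_of_homogeneous hD b x'
        have h9 : (fun i => b * x' i) = b • x' := rfl
        rw [h9] at h8
        rw [h8, hxq j, mul_zero]
      rw [h7, map_zero]
      exact hδ.le) t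
    have h7 : T.absK ((b • x') t) = 1 := ht
    rw [h7] at h6
    exact lt_irrefl _ h6
  · have h0 : (0 : Fin (n + 1) → C) ∈ X := IsConeOver.zero_mem hX hne
    refine approx_of_system T B hSX h0 hd fun δ hδ => ?_
    obtain ⟨δ', hδ', hδ1, h2⟩ := small_near T.ultraK
      (fun k => MvPolynomial.map (algebraMap K C) (S k)) hSX' hδ
    obtain ⟨X', h3, h4, h4', h5⟩ := hlim δ' hδ'
    obtain ⟨r', S', hS', hSX2⟩ := exists_forms h3 (DimGE.nonempty h4)
    obtain ⟨η, hη, h6⟩ := tube T.ultraK (fun k => MvPolynomial.map (algebraMap K C) (S' k)) hδ'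
    obtain ⟨W, a1, a2, -, a4⟩ := system_of_approx T.toTiltPair hS'
      (fun x hx => (hSX2 x).1 hx) h4' hη
    refine ⟨W, a1, a2, fun w hw hw1 k => ?_⟩
    have hv1 : ∀ i, T.absK ((fun i => T.sharp (w i)) i) ≤ 1 := fun i => by
      rw [T.abs_sharp]
      exact hw1 i
    obtain ⟨y, hy, hyw⟩ := h6 (fun i => T.sharp (w i)) hv1 fun k => by
      rw [eval_map_alg]
      exact a4 w hw hw1 k
    have hyX : y ∈ X' := (hSX2 y).2 fun k => by rw [← eval_map_alg]; exact hy k
    have hy1 : ∀ i, T.absK (y i) ≤ 1 := by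
      intro i
      have h1 : y i = T.sharp (w i) - (T.sharp (w i) - y i) := by ring
      rw [h1]
      exact (abs_sub_le' T.ultraK _ _).trans (max_le (hv1 i) ((hyw i).trans hδ1))
    obtain ⟨x, hx, hxy⟩ := h5 y hyX hy1
    have h7 := h2 (fun i => T.sharp (w i)) hv1 ⟨x, hx, fun i => by
      have h8 : T.sharp (w i) - x i = (T.sharp (w i) - y i) + (y i - x i) := by ring
      rw [h8]
      exact (T.ultraK _ _).trans (max_le (hyw i) (hxy i))⟩ k
    rwa [eval_map_alg] at h7

end Pool.Agent.K7.H6.PT
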