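import Pool.Agent.K7.H6.PT.Norm
import Pool.Agent.Y129.TA.Zeros

/-!
# Points near a closed set, quantitatively
-/

set_option autoImplicit false

namespace Pool.Agent.K7.H6.PT

open MvPolynomial

section Val

variable {L : Type} [Field L] {a : AbsoluteValue L ℝ}

theorem abs_sub_le' (ha : ∀ x y, a (x + y) ≤ max (a x) (a y)) (x y : L) :
    a (x - y) ≤ max (a x) (a y) := by
  rw [sub_eq_add_neg]
  refine (ha _ _).trans ?_
  rw [AbsoluteValue.map_neg]

/-- A polynomial of degree less than `n` which is small at `n` separated points of the unit ball has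
small coefficients. -/
theorem coeff_le (ha : ∀ x y, a (x + y) ≤ max (a x) (a y)) {κ : ℝ} (hκ : 0 < κ) (hκ1 : κ ≤ 1)
    (n : ℕ) : ∀ (δ : ℝ), 0 ≤ δ → ∀ (W : Polynomial L), W.degree < n → ∀ Λ : Finset L,
    n ≤ Λ.card → (∀ s ∈ Λ, a s ≤ 1) → (∀ s ∈ Λ, ∀ t ∈ Λ, s ≠ t → κ ≤ a (s - t)) →
    (∀ s ∈ Λ, a (W.eval s) ≤ δ) → ∀ i, a (W.coeff i) ≤ δ / κ ^ n := by
  classical
  induction n with
  | zero =>
    intro δ hδ W hW Λ _ _ _ _ i
    have h1 : W = 0 := by
      rw [← Polynomial.degree_eq_bot]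
      exact Nat.WithBot.lt_zero_iff.1 (by exact_mod_cast hW)
    rw [h1, Polynomial.coeff_zero, map_zero, pow_zero, div_one]
    exact hδ
  | succ n ih =>
    intro δ hδ W hW Λ hΛ h1 h2 h3 i
    have hδκ : δ ≤ δ / κ ^ (n + 1) := by
      rw [le_div_iff₀ (pow_pos hκ _)]
      exact mul_le_of_le_one_right hδ (pow_le_one₀ hκ.le hκ1)
    by_cases hW0 : W = 0
    · rw [hW0, Polynomial.coeff_zero, map_zero]
      positivity
    obtain ⟨s₀, hs₀⟩ : Λ.Nonempty := by
      rw [← Finset.card_pos]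
      omega
    set Q := W /ₘ (Polynomial.X - Polynomial.C s₀) with hQ
    have hdec : Polynomial.C (W.eval s₀) + (Polynomial.X - Polynomial.C s₀) * Q = W := by
      rw [hQ, ← Polynomial.modByMonic_X_sub_C_eq_C_eval]
      exact Polynomial.modByMonic_add_div W _
    have hQd : Q.degree < n := by
      have h4 : Q.degree < W.degree := Polynomial.degree_divByMonic_lt W
        (Polynomial.X - Polynomial.C s₀) hW0 (by rw [Polynomial.degree_X_sub_C]; exact one_pos)
      have h5 : W.degree ≤ n := by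
        rw [Polynomial.degree_le_iff_coeff_zero]
        intro m hm
        rw [Polynomial.degree_lt_iff_coeff_zero] at hW
        exact hW m (by exact_mod_cast hm)
      exact lt_of_lt_of_le h4 h5
    have hQs : ∀ s ∈ Λ.erase s₀, a (Q.eval s) ≤ δ / κ := by
      intro s hs
      rw [Finset.mem_erase] at hs
      have h4 : W.eval s = W.eval s₀ + (s - s₀) * Q.eval s := by
        conv_lhs => rw [← hdec]
        simp
      have h5 : (s - s₀) * Q.eval s = W.eval s - W.eval s₀ := by rw [h4]; ring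
      have h6 : a (s - s₀) * a (Q.eval s) ≤ δ := by
        rw [← map_mul, h5]
        exact (abs_sub_le' ha _ _).trans (max_le (h3 s hs.2) (h3 s₀ hs₀))
      rw [le_div_iff₀ hκ, mul_comm]
      exact (mul_le_mul_of_nonneg_right (h2 s hs.2 s₀ hs₀ hs.1) (a.nonneg _)).trans h6
    have hQc := ih (δ / κ) (by positivity) Q hQd (Λ.erase s₀)
      (by rw [Finset.card_erase_of_mem hs₀]; omega) (fun s hs => h1 s (Finset.mem_of_mem_erase hs))
      (fun s hs t ht => h2 s (Finset.mem_of_mem_erase hs) t (Finset.mem_of_mem_erase ht)) hQs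
    have e1 : δ / κ / κ ^ n = δ / κ ^ (n + 1) := by rw [div_div, pow_succ, mul_comm]
    rw [e1] at hQc
    rw [← hdec, Polynomial.coeff_add]
    refine (ha _ _).trans (max_le ?_ ?_)
    · rw [Polynomial.coeff_C]
      split_ifs
      · exact (h3 s₀ hs₀).trans hδκ
      · rw [map_zero]
        positivity
    · rw [sub_mul, Polynomial.coeff_sub, Polynomial.coeff_C_mul]
      refine (abs_sub_le' ha _ _).trans (max_le ?_ ?_)
      · rcases i with _ | i
        · rw [Polynomial.coeff_X_mul_zero, map_zero]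
          positivity
        · rw [Polynomial.coeff_X_mul]
          exact hQc i
      · rw [map_mul]
        exact (mul_le_of_le_one_left (a.nonneg _) (h1 s₀ hs₀)).trans (hQc i)

theorem multiset_prod_lt {S : Multiset ℝ} {ε : ℝ} (hε : 0 < ε) (h : ∀ x ∈ S, ε < x) (hS : S ≠ 0) :
    ε ^ (Multiset.card S) < S.prod := by
  induction S using Multiset.induction_on with
  | empty => exact absurd rfl hS
  | cons x S ih =>
    rw [Multiset.card_cons, Multiset.prod_cons, pow_succ, mul_comm]
    have hx : ε < x := h x (Multiset.mem_cons_self x S)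
    by_cases hS0 : S = 0
    · subst hS0
      simpa using hx
    · have h1 := ih (fun y hy => h y (Multiset.mem_cons_of_mem hy)) hS0
      exact mul_lt_mul hx h1.le (by positivity) (hε.trans hx).le

end Val

section Close

variable {L₀ L : Type} [Field L₀] [Field L] [Algebra L₀ L] [IsAlgClosed L₀]
  {a : AbsoluteValue L ℝ}

theorem root_close {H : Polynomial L₀} (hm : H.Monic) (hd : 0 < H.natDegree) {t : L} {ε : ℝ}
    (hε : 0 < ε) (h : a (H.eval₂ (algebraMap L₀ L) t) ≤ ε ^ H.natDegree) :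
    ∃ τ : L₀, H.eval τ = 0 ∧ a (t - algebraMap L₀ L τ) ≤ ε := by
  by_contra hno
  push Not at hno
  have hs : H.Splits := IsAlgClosed.splits H
  have h1 : H.eval₂ (algebraMap L₀ L) t = (H.roots.map fun τ => t - algebraMap L₀ L τ).prod := by
    conv_lhs => rw [hs.eq_prod_roots_of_monic hm]
    rw [Polynomial.eval₂_multiset_prod, Multiset.map_map]
    simp
  have h2 : Multiset.card H.roots = H.natDegree := hs.natDegree_eq_card_roots.symm
  rw [h1, map_multiset_prod, Multiset.map_map] at h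
  have h3 := multiset_prod_lt (S := H.roots.map (a ∘ fun τ => t - algebraMap L₀ L τ)) hε (by
    intro x hx
    rw [Multiset.mem_map] at hx
    obtain ⟨τ, hτ, rfl⟩ := hx
    refine hno τ ?_
    exact (Polynomial.mem_roots'.1 hτ).2) (by
    intro h0
    rw [Multiset.map_eq_zero] at h0
    rw [h0, Multiset.card_zero] at h2
    omega)
  rw [Multiset.card_map, h2] at h3
  exact absurd h (not_le.2 h3)

/-- The unit ball of an infinite subfield is infinite. -/
theorem ball_infinite (L₀ : Type) [Field L₀] [Infinite L₀] [Algebra L₀ L] (a : AbsoluteValue L ℝ) :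
    {s : L₀ | a (algebraMap L₀ L s) ≤ 1}.Infinite := by
  intro hfin
  have h1 : (Set.univ : Set L₀) ⊆ {s : L₀ | a (algebraMap L₀ L s) ≤ 1} ∪
      (fun s => s⁻¹) '' {s : L₀ | a (algebraMap L₀ L s) ≤ 1} := by
    intro s _
    rcases le_or_gt (a (algebraMap L₀ L s)) 1 with h | h
    · exact Or.inl h
    · refine Or.inr ⟨s⁻¹, ?_, inv_inv s⟩
      change a (algebraMap L₀ L s⁻¹) ≤ 1
      rw [map_inv₀, map_inv₀]
      exact inv_le_one_of_one_le₀ h.le
  exact Set.infinite_univ ((hfin.union (hfin.image _)).subset h1)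

/-- A finite set of points of the unit ball of an infinite subfield, with a lower bound for the
distances. -/
theorem exists_points (L₀ : Type) [Field L₀] [Infinite L₀] [Algebra L₀ L] (a : AbsoluteValue L ℝ)
    (N : ℕ) : ∃ (Λ : Finset L₀) (κ : ℝ), Λ.card = N ∧ 0 < κ ∧ κ ≤ 1 ∧
      (∀ s ∈ Λ, a (algebraMap L₀ L s) ≤ 1) ∧
      ∀ s ∈ Λ, ∀ t ∈ Λ, s ≠ t → κ ≤ a (algebraMap L₀ L s - algebraMap L₀ L t) := by
  classical
  obtain ⟨Λ, hΛ, hc⟩ := (ball_infinite L₀ a).exists_subset_card_eq N
  have h1 : ∀ S : Finset (L₀ × L₀), (∀ x ∈ S, x.1 ≠ x.2) → ∃ κ : ℝ, 0 < κ ∧ κ ≤ 1 ∧ ∀ x ∈ S,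
      κ ≤ a (algebraMap L₀ L x.1 - algebraMap L₀ L x.2) := by
    intro S
    induction S using Finset.induction_on with
    | empty => exact fun _ => ⟨1, one_pos, le_rfl, fun x hx => absurd hx (Finset.notMem_empty x)⟩
    | insert x S' _ ih =>
      intro hS
      obtain ⟨κ, h1, h2, h3⟩ := ih fun y hy => hS y (Finset.mem_insert_of_mem hy)
      refine ⟨min κ (a (algebraMap L₀ L x.1 - algebraMap L₀ L x.2)), lt_min h1 ?_,
        (min_le_left _ _).trans h2, fun y hy => ?_⟩
      · refine a.pos (sub_ne_zero.2 fun h => ?_)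
        exact hS x (Finset.mem_insert_self x S') ((algebraMap L₀ L).injective h)
      · rw [Finset.mem_insert] at hy
        rcases hy with rfl | hy
        · exact min_le_right _ _
        · exact (min_le_left _ _).trans (h3 y hy)
  obtain ⟨κ, hκ, hκ1, h2⟩ := h1 ((Λ ×ˢ Λ).filter fun x => x.1 ≠ x.2)
    fun x hx => (Finset.mem_filter.1 hx).2
  refine ⟨Λ, κ, hc, hκ, hκ1, fun s hs => hΛ hs, fun s hs t ht hst => h2 (s, t) ?_⟩
  rw [Finset.mem_filter, Finset.mem_product]
  exact ⟨⟨hs, ht⟩, hst⟩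

theorem eval_comb {k σ : Type} [Field k] {m : ℕ} (U : Fin m → MvPolynomial σ k)
    (l : MvPolynomial σ k) (H : Polynomial (MvPolynomial (Fin m) k)) (y : σ → k) :
    eval y (comb U l H) = H.eval₂ (eval fun j => eval y (U j)) (eval y l) := by
  unfold comb
  rw [Polynomial.hom_eval₂]
  congr 1
  refine MvPolynomial.ringHom_ext (fun c => ?_) fun j => ?_
  · simp
  · simp

theorem aeval_comb {k L σ : Type} [Field k] [Field L] [Algebra k L] {m : ℕ}
    (U : Fin m → MvPolynomial σ k) (l : MvPolynomial σ k)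
    (H : Polynomial (MvPolynomial (Fin m) k)) (y : σ → L) :
    aeval y (comb U l H) = H.eval₂ (aeval (fun j => aeval y (U j)) :
      MvPolynomial (Fin m) k →ₐ[k] L).toRingHom (aeval y l) := by
  unfold comb
  change (aeval y : MvPolynomial σ k →ₐ[k] L).toRingHom _ = _
  rw [Polynomial.hom_eval₂]
  congr 1
  refine MvPolynomial.ringHom_ext (fun c => ?_) fun j => ?_
  · simp
  · simp

/-- Quantitative lifting: a point `v` over `L` where the polynomials `H j` over the point `u` of the
base are small is near a point of the zero set of the prime ideal `P` over `L₀`. -/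
theorem near_prime (ha : ∀ x y, a (x + y) ≤ max (a x) (a y)) {σ : Type} [Fintype σ]
    (P : Ideal (MvPolynomial σ L₀)) [hP : P.IsPrime] {δ : ℝ} (hδ : 0 < δ) :
    ∃ (m : ℕ) (U : Fin m → MvPolynomial σ L₀) (J : Type) (_ : Fintype J)
      (l : J → MvPolynomial σ L₀) (H : J → Polynomial (MvPolynomial (Fin m) L₀)) (η : ℝ),
      0 < η ∧ (∀ l' : MvPolynomial σ L₀, ∃ H' : Polynomial (MvPolynomial (Fin m) L₀), H'.Monic ∧
        comb U l' H' ∈ P) ∧ (∀ j, comb U (l j) (H j) ∈ P) ∧ ∀ (v : σ → L) (u : Fin m → L₀),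
        (∀ j, a ((H j).eval₂ ((algebraMap L₀ L).comp (eval u)) (aeval v (l j))) ≤ η) →
          ∃ y : σ → L₀, (∀ f ∈ P, eval y f = 0) ∧ (∀ j, eval y (U j) = u j) ∧
            ∀ i, a (v i - algebraMap L₀ L (y i)) ≤ δ := by
  classical
  have hinf : Infinite L₀ := IsAlgClosed.instInfinite
  obtain ⟨m, U, hU⟩ := noether P
  choose H0 hm0 hd0 hP0 hr0 using fun i : σ => hU (MvPolynomial.X i)
  set q := Fintype.card σ with hq
  let e : σ ≃ Fin q := Fintype.equivFin σ
  set N₀ : ℕ := ∏ i, (H0 i).natDegree with hN₀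
  obtain ⟨Λ, κ, hc, hκ, hκ1, hΛ1, hΛ2⟩ := exists_points L₀ a (N₀ * q + 1)
  let ls : L₀ → MvPolynomial σ L₀ := fun s => ∑ i, MvPolynomial.C (s ^ (e i : ℕ)) * MvPolynomial.X i
  choose H hm hd hPs hr using fun s : L₀ => hU (ls s)
  set ε₀ : ℝ := min 1 (δ * κ ^ q) with hε₀
  have hε₀p : 0 < ε₀ := lt_min one_pos (by positivity)
  have hε₀1 : ε₀ ≤ 1 := min_le_left _ _
  set D : ℕ := ∑ s ∈ Λ, (H s).natDegree with hD
  refine ⟨m, U, Λ, inferInstance, fun s => ls s, fun s => H s, ε₀ ^ D, by positivity,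
    fun l' => ?_, fun s => hPs s, fun v u hv => ?_⟩
  · obtain ⟨H', h1, -, h2, -⟩ := hU l'
    exact ⟨H', h1, h2⟩
  -- a point for every `s`
  have h1 : ∀ s : Λ, ∃ y : σ → L₀, (∀ f ∈ P, eval y f = 0) ∧ (∀ j, eval y (U j) = u j) ∧
      a (aeval v (ls s) - algebraMap L₀ L (eval y (ls s))) ≤ ε₀ := by
    intro s
    have h2 := hv s
    rw [← Polynomial.eval₂_map] at h2
    obtain ⟨τ, hτ, hτ2⟩ := root_close (H := (H s).map (eval u)) ((hm s).map _)
      (by rw [(hm s).natDegree_map]; exact hd s) hε₀p (h2.trans (by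
        rw [(hm s).natDegree_map]
        refine pow_le_pow_of_le_one hε₀p.le hε₀1 ?_
        exact Finset.single_le_sum (f := fun s => (H s).natDegree) (fun s _ => Nat.zero_le _) s.2))
    rw [Polynomial.eval_map] at hτ
    obtain ⟨y, hy1, hy2, hy3⟩ := hr s u τ hτ
    exact ⟨y, hy1, hy2, by rw [hy3]; exact hτ2⟩
  choose y hy1 hy2 hy3 using h1
  -- the pigeonhole principle
  let T : Finset (σ → L₀) := Fintype.piFinset fun i => ((H0 i).map (eval u)).roots.toFinset
  have hT : T.card ≤ N₀ := by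
    rw [Fintype.card_piFinset, hN₀]
    refine Finset.prod_le_prod' fun i _ => ?_
    refine (Multiset.toFinset_card_le _).trans ?_
    refine (Polynomial.card_roots' _).trans ?_
    rw [(hm0 i).natDegree_map]
  have hyT : ∀ s ∈ (Finset.univ : Finset Λ), y s ∈ T := by
    intro s _
    rw [Fintype.mem_piFinset]
    intro i
    rw [Multiset.mem_toFinset, Polynomial.mem_roots ((hm0 i).map _).ne_zero, Polynomial.IsRoot.def,
      Polynomial.eval_map]
    have h2 := hy1 s _ (hP0 i)
    rw [eval_comb, eval_X] at h2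
    have h3 : (fun j => eval (y s) (U j)) = u := funext (hy2 s)
    rwa [h3] at h2
  obtain ⟨y₀, hy₀, hcard⟩ := Finset.exists_lt_card_fiber_of_mul_lt_card_of_maps_to (n := q) hyT (by
    rw [Finset.card_univ, Fintype.card_coe, hc]
    exact Nat.lt_succ_of_le (Nat.mul_le_mul_right q hT))
  set S := (Finset.univ : Finset Λ).filter fun s => y s = y₀ with hS
  obtain ⟨s₁, hs₁⟩ : S.Nonempty := Finset.card_pos.1 (lt_of_le_of_lt (Nat.zero_le _) hcard)
  refine ⟨y₀, ?_, ?_, ?_⟩
  · rw [← (Finset.mem_filter.1 hs₁).2]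
    exact hy1 s₁
  · rw [← (Finset.mem_filter.1 hs₁).2]
    exact hy2 s₁
  -- the interpolation
  let w : Fin q → L := fun t => v (e.symm t) - algebraMap L₀ L (y₀ (e.symm t))
  let W : Polynomial L := ∑ t : Fin q, Polynomial.C (w t) * Polynomial.X ^ (t : ℕ)
  have hWd : W.degree < q := Polynomial.degree_sum_fin_lt w
  have hWe : ∀ s : L₀, W.eval (algebraMap L₀ L s) =
      aeval v (ls s) - algebraMap L₀ L (eval y₀ (ls s)) := by
    intro s
    simp only [W, ls, w, Polynomial.eval_finsetSum, Polynomial.eval_mul, Polynomial.eval_C,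
      Polynomial.eval_pow, Polynomial.eval_X, map_sum, map_mul, aeval_C, aeval_X, eval_C, eval_X,
      map_pow]
    rw [← Finset.sum_sub_distrib, ← Equiv.sum_comp e]
    refine Finset.sum_congr rfl fun i _ => ?_
    rw [e.symm_apply_apply]
    ring
  let S' : Finset L := Finset.image (fun s : Λ => algebraMap L₀ L (s : L₀)) S
  have hS' : S'.card = S.card := Finset.card_image_of_injective _ fun s t hst =>
    Subtype.ext ((algebraMap L₀ L).injective hst)
  have hε₀n : (0 : ℝ) ≤ δ * κ ^ q := by positivity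
  have hfin := coeff_le ha hκ hκ1 q (δ * κ ^ q) hε₀n W hWd S' (by rw [hS']; exact hcard.le)
    (by
      intro s hs
      obtain ⟨s', _, rfl⟩ := Finset.mem_image.1 hs
      exact hΛ1 s' s'.2)
    (by
      intro s hs t ht hst
      obtain ⟨s', _, rfl⟩ := Finset.mem_image.1 hs
      obtain ⟨t', _, rfl⟩ := Finset.mem_image.1 ht
      exact hΛ2 s' s'.2 t' t'.2 fun h => hst (by rw [h]))
    (by
      intro s hs
      obtain ⟨s', hs', rfl⟩ := Finset.mem_image.1 hs
      rw [hWe, ← (Finset.mem_filter.1 hs').2]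
      exact (hy3 s').trans (min_le_right _ _))
  intro i
  have h5 := hfin (e i : ℕ)
  rw [mul_div_assoc, div_self (pow_pos hκ q).ne', mul_one] at h5
  have h6 : W.coeff (e i : ℕ) = v i - algebraMap L₀ L (y₀ i) := by
    simp only [W, Polynomial.finsetSum_coeff, Polynomial.coeff_C_mul_X_pow]
    rw [Finset.sum_eq_single (e i)]
    · simp [w]
    · intro b _ hb
      rw [if_neg]
      intro h
      exact hb (Fin.ext h.symm)
    · intro h
      exact absurd (Finset.mem_univ _) h
  rwa [h6] at h5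

end Close

end Pool.Agent.K7.H6.PT
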