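import Pool.Agent.Y129.TB.Image

/-!
# Points near a prime: Noether normalisation and minimal polynomials
-/

set_option autoImplicit false

namespace Pool.Agent.K7.H6.PT

open MvPolynomial

section Alg

variable {k σ : Type} [Field k] [IsAlgClosed k] [Finite σ]

/-- The polynomial `H(U, l)`. -/
noncomputable def comb {m : ℕ} (U : Fin m → MvPolynomial σ k) (l : MvPolynomial σ k)
    (H : Polynomial (MvPolynomial (Fin m) k)) : MvPolynomial σ k :=
  Polynomial.eval₂ (aeval U : MvPolynomial (Fin m) k →ₐ[k] MvPolynomial σ k).toRingHom l H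

theorem lift_root {B A k : Type} [CommRing B] [IsDomain B] [IsIntegrallyClosed B] [CommRing A]
    [IsDomain A] [Algebra B A] [Module.IsTorsionFree B A] [Algebra.IsIntegral B A] [Field k]
    [IsAlgClosed k] (s : A) (φ₀ : B →+* k) (τ : k)
    (h : (minpoly B s).eval₂ φ₀ τ = 0) :
    ∃ ψ : A →+* k, (∀ b, ψ (algebraMap B A b) = φ₀ b) ∧ ψ s = τ := by
  have hs : IsIntegral B s := Algebra.IsIntegral.isIntegral s
  let iBA : Algebra (Polynomial B) A :=
    (Polynomial.aeval s : Polynomial B →ₐ[B] A).toRingHom.toAlgebra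
  have htow : IsScalarTower B (Polynomial B) A := by
    refine IsScalarTower.of_algebraMap_eq fun f => ?_
    change algebraMap B A f = Polynomial.aeval s (Polynomial.C f)
    rw [Polynomial.aeval_C]
  have hint2 : Algebra.IsIntegral (Polynomial B) A := Algebra.IsIntegral.tower_top B
  let φ : Polynomial B →+* k := Polynomial.eval₂RingHom φ₀ τ
  obtain ⟨ψ, hψ⟩ := Pool.Agent.Y129.TB.exists_hom (R := Polynomial B) (S := A) (F := k) φ (by
    intro f hf
    rw [RingHom.mem_ker] at hf ⊢
    have h1 : Polynomial.aeval s f = 0 := hf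
    obtain ⟨q, rfl⟩ := minpoly.isIntegrallyClosed_dvd hs h1
    rw [map_mul]
    have h2 : φ (minpoly B s) = 0 := h
    rw [h2, zero_mul])
  have hψ' : ∀ f : Polynomial B, ψ (Polynomial.aeval s f) = φ f := fun f =>
    congrArg (fun χ : Polynomial B →+* k => χ f) hψ
  refine ⟨ψ, fun b => ?_, ?_⟩
  · have h1 := hψ' (Polynomial.C b)
    rw [Polynomial.aeval_C] at h1
    rw [h1]
    exact Polynomial.eval₂_C _ _
  · have h1 := hψ' Polynomial.X
    rw [Polynomial.aeval_X] at h1
    rw [h1]
    exact Polynomial.eval₂_X _ _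

theorem noether_aux {B A k : Type} [CommRing B] [IsDomain B] [IsIntegrallyClosed B] [CommRing A]
    [IsDomain A] [Field k] [IsAlgClosed k] [Algebra k A] [Algebra k B] (g : B →ₐ[k] A)
    (hg : Function.Injective g) (hgi : g.IsIntegral) (s : A) :
    ∃ H : Polynomial B, H.Monic ∧ 0 < H.natDegree ∧ H.eval₂ g.toRingHom s = 0 ∧
      ∀ (φ₀ : B →ₐ[k] k) (τ : k), H.eval₂ φ₀.toRingHom τ = 0 →
        ∃ ψ : A →ₐ[k] k, (∀ b, ψ (g b) = φ₀ b) ∧ ψ s = τ := by
  let iA : Algebra B A := g.toRingHom.toAlgebra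
  have hinj : Function.Injective (algebraMap B A) := hg
  have hint : Algebra.IsIntegral B A := ⟨fun x => hgi x⟩
  have hfs : FaithfulSMul B A := (faithfulSMul_iff_algebraMap_injective _ _).2 hinj
  have htf : Module.IsTorsionFree B A := inferInstance
  have hs : IsIntegral B s := Algebra.IsIntegral.isIntegral s
  refine ⟨minpoly B s, minpoly.monic hs, minpoly.natDegree_pos hs, ?_, fun φ₀ τ hτ => ?_⟩
  · have h1 := minpoly.aeval B s
    rw [Polynomial.aeval_def] at h1
    exact h1
  · obtain ⟨ψ, h1, h2⟩ := lift_root s φ₀.toRingHom τ hτ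
    refine ⟨{ ψ with commutes' := fun c => ?_ }, h1, h2⟩
    have h3 := h1 (algebraMap k B c)
    have h4 : algebraMap B A (algebraMap k B c) = algebraMap k A c := g.commutes c
    rw [h4] at h3
    refine h3.trans ?_
    exact φ₀.commutes c

/-- Noether normalisation of the coordinate ring of a prime ideal, with minimal polynomials: all roots of
the minimal polynomial of `l` over a point `u` are values of `l` at points over `u`. -/
theorem noether (P : Ideal (MvPolynomial σ k)) [hP : P.IsPrime] :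
    ∃ (m : ℕ) (U : Fin m → MvPolynomial σ k), ∀ l : MvPolynomial σ k,
      ∃ H : Polynomial (MvPolynomial (Fin m) k), H.Monic ∧ 0 < H.natDegree ∧ comb U l H ∈ P ∧
        ∀ (u : Fin m → k) (τ : k), Polynomial.eval₂ (eval u) τ H = 0 →
          ∃ y : σ → k, (∀ f ∈ P, eval y f = 0) ∧ (∀ j, eval y (U j) = u j) ∧ eval y l = τ := by
  classical
  obtain ⟨m, g, hg, hgi⟩ := exists_integral_inj_algHom_of_fg k (MvPolynomial σ k ⧸ P)
  choose U hU using fun j : Fin m => Ideal.Quotient.mk_surjective (I := P) (g (MvPolynomial.X j))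
  have hU' : ∀ f : MvPolynomial (Fin m) k, Ideal.Quotient.mk P (aeval U f) = g f := by
    intro f
    have h1 : (Ideal.Quotient.mkₐ k P).comp (aeval U) = g := by
      ext j
      rw [AlgHom.comp_apply, aeval_X]
      exact hU j
    exact congrArg (fun φ : MvPolynomial (Fin m) k →ₐ[k] (MvPolynomial σ k ⧸ P) => φ f) h1
  refine ⟨m, U, fun l => ?_⟩
  obtain ⟨H, h1, h2, h3, h4⟩ := noether_aux g hg hgi (Ideal.Quotient.mk P l)
  refine ⟨H, h1, h2, ?_, fun u τ hτ => ?_⟩
  · rw [← Ideal.Quotient.eq_zero_iff_mem, ← h3]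
    change Ideal.Quotient.mk P (Polynomial.eval₂ _ l H) = _
    rw [Polynomial.hom_eval₂]
    congr 1
    refine RingHom.ext fun f => ?_
    exact hU' f
  · obtain ⟨ψ, h5, h6⟩ := h4 (aeval u) τ (by
      refine Eq.trans ?_ hτ
      congr 1)
    let y : σ → k := fun i => ψ (Ideal.Quotient.mk P (MvPolynomial.X i))
    have hy : ∀ f : MvPolynomial σ k, eval y f = ψ (Ideal.Quotient.mk P f) := by
      intro f
      have h1 : (aeval y : MvPolynomial σ k →ₐ[k] k) = ψ.comp (Ideal.Quotient.mkₐ k P) := by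
        ext i
        rw [aeval_X, AlgHom.comp_apply]
        rfl
      rw [← aeval_eq_eval]
      exact congrArg (fun χ : MvPolynomial σ k →ₐ[k] k => χ f) h1
    refine ⟨y, fun f hf => ?_, fun j => ?_, ?_⟩
    · rw [hy, Ideal.Quotient.eq_zero_iff_mem.2 hf, map_zero]
    · rw [hy, hU j, h5, aeval_X]
    · rw [hy, h6]

end Alg

end Pool.Agent.K7.H6.PT
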