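import Pool.Agent.K7.H6.PT.Limit
import Pool.Agent.K7.H3.ZC.Val

/-!
# Specialisation of closed sets to a dense subfield
-/

set_option autoImplicit false
set_option linter.unusedSectionVars false

namespace Pool.Agent.K7.H6.PT

open MvPolynomial Pool.Agent.Y129.TA Pool.Agent.X271.TQ
open Pool.Agent.Y129.TB (IsConeOver InTube Approximable DimLEOver form_map eval_map_alg BaseField)

/-- `L₀` is dense in `L` for the absolute value `a`. -/
def IsDenseIn (L₀ L : Type) [Field L₀] [Field L] [Algebra L₀ L] (a : AbsoluteValue L ℝ) : Prop :=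
  ∀ x : L, ∀ ε : ℝ, 0 < ε → ∃ y : L₀, a (x - algebraMap L₀ L y) ≤ ε

section

variable {L₀ L : Type} [Field L₀] [Field L] [Algebra L₀ L] {a : AbsoluteValue L ℝ}

theorem degree_of_hom {R ι : Type} [CommSemiring R] {f : MvPolynomial ι R} {D : ℕ}
    (hf : f.IsHomogeneous D) {m : ι →₀ ℕ} (hm : coeff m f ≠ 0) : Finsupp.degree m = D := by
  have h1 := hf hm
  rw [Finsupp.degree_eq_weight_one (R := ℕ)]
  exact h1

theorem multiHom_rename {R : Type} [CommSemiring R] {n : ℕ} {f : MvPolynomial (Fin (n + 1)) R}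
    {D : ℕ} (hf : f.IsHomogeneous D) :
    Pool.Agent.K7.H3.ZC.MultiHomogeneous
      (rename (fun j => ((), j)) f : MvPolynomial (Unit × Fin (n + 1)) R) fun _ => D := by
  classical
  have hinj : Function.Injective fun j : Fin (n + 1) => ((), j) := fun i j h => (Prod.ext_iff.1 h).2
  intro m hm i
  rw [support_rename_of_injective hinj, Finset.mem_image] at hm
  obtain ⟨m', hm', rfl⟩ := hm
  have h1 := degree_of_hom hf (mem_support_iff.1 hm')
  rw [← h1, Finsupp.degree_eq_sum]
  refine Finset.sum_congr rfl fun j _ => ?_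
  exact Finsupp.mapDomain_apply hinj m' j

/-- perturbation of forms -/
theorem perturb (hdense : IsDenseIn L₀ L a) {ι : Type} {f : MvPolynomial ι L} {D : ℕ}
    (hf : f.IsHomogeneous D) {δ : ℝ} (hδ : 0 < δ) : ∃ f' : MvPolynomial ι L₀, f'.IsHomogeneous D ∧
      ∀ m, a (coeff m f - coeff m (MvPolynomial.map (algebraMap L₀ L) f')) ≤ δ := by
  classical
  choose g hg using fun m : ι →₀ ℕ => hdense (coeff m f) δ hδ
  refine ⟨∑ m ∈ f.support, monomial m (g m), ?_, fun m => ?_⟩
  · refine IsHomogeneous.sum _ _ _ fun m hm => ?_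
    refine isHomogeneous_monomial _ ?_
    exact degree_of_hom hf (mem_support_iff.1 hm)
  · rw [coeff_map, coeff_sum]
    simp only [coeff_monomial]
    rw [Finset.sum_ite_eq' f.support m]
    split_ifs with h
    · exact hg m
    · rw [notMem_support_iff.1 h, map_zero, sub_zero, map_zero]
      exact hδ.le

variable [IsAlgClosed L₀]

/-- A homomorphism from the algebra generated by a point. -/
theorem exists_spec_hom {σ : Type} {c : σ → L} {c' : σ → L₀}
    (h : ∀ f : MvPolynomial σ L₀, aeval c f = 0 → eval c' f = 0) :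
    ∃ ψ : (aeval c : MvPolynomial σ L₀ →ₐ[L₀] L).range →ₐ[L₀] L₀, ∀ i (hi : c i ∈
      (aeval c : MvPolynomial σ L₀ →ₐ[L₀] L).range), ψ ⟨c i, hi⟩ = c' i := by
  let A := (aeval c : MvPolynomial σ L₀ →ₐ[L₀] L).range
  have hker : ∀ f, f ∈ RingHom.ker (aeval c : MvPolynomial σ L₀ →ₐ[L₀] L) →
      (aeval c' : MvPolynomial σ L₀ →ₐ[L₀] L₀) f = 0 := fun f hf => h f hf
  let φ : (MvPolynomial σ L₀ ⧸ RingHom.ker (aeval c : MvPolynomial σ L₀ →ₐ[L₀] L)) →ₐ[L₀] L₀ :=
    Ideal.Quotient.liftₐ _ (aeval c') hker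
  let e := Ideal.quotientKerEquivRange (aeval c : MvPolynomial σ L₀ →ₐ[L₀] L)
  refine ⟨φ.comp (e.symm : A →ₐ[L₀] _), fun i hi => ?_⟩
  have h1 : e (Ideal.Quotient.mk _ (X i)) = ⟨c i, hi⟩ := Subtype.ext (aeval_X c i)
  change φ (e.symm ⟨c i, hi⟩) = c' i
  rw [← h1, AlgEquiv.symm_apply_apply]
  change (aeval c' : MvPolynomial σ L₀ →ₐ[L₀] L₀) (X i) = c' i
  rw [aeval_X]

variable [IsAlgClosed L]

/-- **Specialisation of closed sets.** -/
theorem dimGE_spec (ha : ∀ x y, a (x + y) ≤ max (a x) (a y)) (hdense : IsDenseIn L₀ L a)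
    {κ : Type} [Fintype κ] {n d : ℕ} (S : κ → MvPolynomial (Fin (n + 1)) L) (D : κ → ℕ)
    (hD : ∀ k, (S k).IsHomogeneous (D k)) (hS : DimGE {x | ∀ k, eval x (S k) = 0} d)
    {δ : ℝ} (hδ : 0 < δ) :
    ∃ S' : κ → MvPolynomial (Fin (n + 1)) L₀, (∀ k, (S' k).IsHomogeneous (D k)) ∧
      (∀ k m, a (coeff m (S k) - coeff m (MvPolynomial.map (algebraMap L₀ L) (S' k))) ≤ δ) ∧
      DimGE {x : Fin (n + 1) → L | ∀ k, aeval x (S' k) = 0} d := by
  classical
  let σ : Type := (k : κ) × (S k).support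
  let c : σ → L := fun s => coeff (s.2 : Fin (n + 1) →₀ ℕ) (S s.1)
  obtain ⟨c', hc', hcc⟩ := spec_point (L₀ := L₀) ha hdense c hδ
  obtain ⟨ψ, hψ⟩ := exists_spec_hom hc'
  let A := (aeval c : MvPolynomial σ L₀ →ₐ[L₀] L).range
  have hcA : ∀ s, c s ∈ A := fun s => ⟨X s, aeval_X c s⟩
  let SA : κ → MvPolynomial (Fin (n + 1)) A := fun k =>
    ∑ m : (S k).support, monomial (m : Fin (n + 1) →₀ ℕ) (⟨c ⟨k, m⟩, hcA _⟩ : A)
  let S' : κ → MvPolynomial (Fin (n + 1)) L₀ := fun k =>
    ∑ m : (S k).support, monomial (m : Fin (n + 1) →₀ ℕ) (c' ⟨k, m⟩)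
  have hSA : ∀ k, MvPolynomial.map (algebraMap A L) (SA k) = S k := by
    intro k
    simp only [SA, map_sum, map_monomial]
    conv_rhs => rw [(S k).as_sum, ← Finset.sum_coe_sort]
    rfl
  have hS'A : ∀ k, MvPolynomial.map (ψ : A →+* L₀) (SA k) = S' k := by
    intro k
    simp only [SA, S', map_sum, map_monomial]
    refine Finset.sum_congr rfl fun m _ => ?_
    congr 1
    exact hψ _ _
  have hdeg : ∀ k (m : (S k).support), Finsupp.degree (m : Fin (n + 1) →₀ ℕ) = D k := by
    intro k m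
    exact degree_of_hom (hD k) (mem_support_iff.1 m.2)
  have hS'h : ∀ k, (S' k).IsHomogeneous (D k) := fun k =>
    IsHomogeneous.sum _ _ _ fun m _ => isHomogeneous_monomial _ (hdeg k m)
  have hSAh : ∀ k, (SA k).IsHomogeneous (D k) := fun k =>
    IsHomogeneous.sum _ _ _ fun m _ => isHomogeneous_monomial _ (hdeg k m)
  refine ⟨S', hS'h, fun k m => ?_, fun q hq => ?_⟩
  · have h1 : coeff m (MvPolynomial.map (algebraMap L₀ L) (S' k)) =
        if h : m ∈ (S k).support then algebraMap L₀ L (c' ⟨k, ⟨m, h⟩⟩) else 0 := by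
      rw [coeff_map]
      simp only [S', coeff_sum, coeff_monomial]
      split_ifs with h
      · rw [Finset.sum_eq_single (⟨m, h⟩ : (S k).support)]
        · rw [if_pos rfl]
        · intro b _ hb
          rw [if_neg]
          intro h2
          exact hb (Subtype.ext h2)
        · intro h2
          exact absurd (Finset.mem_univ _) h2
      · rw [Finset.sum_eq_zero, map_zero]
        intro b _
        rw [if_neg]
        rintro rfl
        exact h b.2
    rw [h1]
    split_ifs with h
    · exact hcc ⟨k, ⟨m, h⟩⟩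
    · rw [notMem_support_iff.1 h, sub_zero, map_zero]
      exact hδ.le
  · by_contra hno
    push Not at hno
    obtain ⟨δ', hδ', h1⟩ := no_zero_near ha (fun k => MvPolynomial.map (algebraMap L₀ L) (S' k)) q
      (fun v hv hvq => by
        by_contra hv0
        obtain ⟨j, hj⟩ := hno v (fun k => by rw [← eval_map_alg]; exact hv k) hv0
        exact hj (hvq j))
    choose Dq hDq hqh using hq
    choose q' hq'h hq' using fun j => perturb hdense (hqh j) hδ'
    obtain ⟨z, hz, hz0, hzq⟩ := hS (fun j => MvPolynomial.map (algebraMap L₀ L) (q' j))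
      fun j => ⟨Dq j, hDq j, (hq'h j).map _⟩
    obtain ⟨v, hv0, hv⟩ := Pool.Agent.K7.H3.ZC.exists_spz (k := L₀) (K := L) (ι := Unit) ψ
      (ξ := fun _ => z) fun _ => hz0
    have hv' : ∀ (G : MvPolynomial (Fin (n + 1)) A) (D : ℕ), G.IsHomogeneous D →
        aeval z (MvPolynomial.map (algebraMap A L) G) = 0 →
          aeval (v ()) (MvPolynomial.map (ψ : A →+* L₀) G) = 0 := by
      intro G D hG h0
      have h2 := hv (rename (fun j => ((), j)) G) (fun _ => D) (multiHom_rename hG) (by
        rw [aeval_rename]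
        rw [aeval_map_algebraMap] at h0
        exact h0)
      rw [map_rename, aeval_rename] at h2
      exact h2
    have hvS : ∀ k, aeval (v ()) (S' k) = 0 := by
      intro k
      rw [← hS'A]
      refine hv' _ _ (hSAh k) ?_
      rw [hSA]
      exact hz k
    have hvq : ∀ j, aeval (v ()) (q' j) = 0 := by
      intro j
      have h2 := hv' (MvPolynomial.map (algebraMap L₀ A) (q' j)) _ ((hq'h j).map _) (by
        rw [MvPolynomial.map_map, ← IsScalarTower.algebraMap_eq, aeval_eq_eval]
        exact hzq j)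
      rw [MvPolynomial.map_map] at h2
      have h3 : (ψ : A →+* L₀).comp (algebraMap L₀ A) = RingHom.id L₀ := by
        ext x
        exact ψ.commutes x
      rwa [h3, MvPolynomial.map_id] at h2
    -- the point over `L`
    let w : Fin (n + 1) → L := fun i => algebraMap L₀ L (v () i)
    have hw0 : w ≠ 0 := by
      intro h0
      apply hv0 ()
      funext i
      have h2 := congrFun h0 i
      exact (map_eq_zero_iff _ (algebraMap L₀ L).injective).1 h2
    have hwe : ∀ f : MvPolynomial (Fin (n + 1)) L₀, aeval (v ()) f = 0 →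
        eval w (MvPolynomial.map (algebraMap L₀ L) f) = 0 := by
      intro f hf
      rw [eval_map_alg]
      have h2 : aeval w f = algebraMap L₀ L (aeval (v ()) f) := by
        rw [← aeval_algebraMap_apply]
        rfl
      rw [h2, hf, map_zero]
    obtain ⟨b, hb, hb1, t, ht⟩ := normalise (a := a) hw0
    have h2 := h1 (fun i => b * w i) hb1 (fun k => by
      rw [eval_smul_of_homogeneous ((hS'h k).map _), hwe _ (hvS k), mul_zero, map_zero]
      exact hδ'.le) (fun j => by
      have h3 := close_coeff ha hδ'.le (hq' j) hb1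
      have h4 : eval (fun i => b * w i) (MvPolynomial.map (algebraMap L₀ L) (q' j)) = 0 := by
        rw [eval_smul_of_homogeneous ((hq'h j).map _), hwe _ (hvq j), mul_zero]
      rwa [h4, sub_zero] at h3) t
    rw [ht] at h2
    exact lt_irrefl _ h2

end

end Pool.Agent.K7.H6.PT
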