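import Pool.Agent.K7.H6.PT.Near

/-!
# Tubes and distances; specialisation of points
-/

set_option autoImplicit false

namespace Pool.Agent.K7.H6.PT

open MvPolynomial

section Lip

variable {L : Type} [Field L] {a : AbsoluteValue L ℝ} {σ : Type}

/-- A polynomial is bounded and Lipschitz on balls. -/
theorem lipschitz (ha : ∀ x y, a (x + y) ≤ max (a x) (a y)) {R : ℝ} (hR : 0 < R)
    (f : MvPolynomial σ L) : ∃ B : ℝ, 0 < B ∧ (∀ v : σ → L, (∀ i, a (v i) ≤ R) → a (eval v f) ≤ B) ∧
      ∀ v w : σ → L, (∀ i, a (v i) ≤ R) → (∀ i, a (w i) ≤ R) → ∀ r : ℝ, 0 ≤ r →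
        (∀ i, a (v i - w i) ≤ r) → a (eval v f - eval w f) ≤ B * r := by
  induction f using MvPolynomial.induction_on with
  | C c =>
    refine ⟨a c + 1, by have := a.nonneg c; linarith, fun v _ => ?_, fun v w _ _ r hr _ => ?_⟩
    · rw [eval_C]
      linarith
    · rw [eval_C, eval_C, sub_self, map_zero]
      have := a.nonneg c
      positivity
  | add f g hf hg =>
    obtain ⟨B, hB, h1, h2⟩ := hf
    obtain ⟨B', hB', h1', h2'⟩ := hg
    refine ⟨max B B', lt_max_of_lt_left hB, fun v hv => ?_, fun v w hv hw r hr hvw => ?_⟩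
    · rw [map_add]
      exact (ha _ _).trans (max_le_max (h1 v hv) (h1' v hv))
    · have e1 : eval v (f + g) - eval w (f + g) =
          (eval v f - eval w f) + (eval v g - eval w g) := by
        rw [map_add, map_add]; ring
      rw [e1]
      refine (ha _ _).trans (max_le ?_ ?_)
      · exact (h2 v w hv hw r hr hvw).trans (mul_le_mul_of_nonneg_right (le_max_left _ _) hr)
      · exact (h2' v w hv hw r hr hvw).trans (mul_le_mul_of_nonneg_right (le_max_right _ _) hr)
  | mul_X f i hf =>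
    obtain ⟨B, hB, h1, h2⟩ := hf
    refine ⟨max (B * R) B, lt_max_of_lt_right hB, fun v hv => ?_, fun v w hv hw r hr hvw => ?_⟩
    · rw [map_mul, eval_X, map_mul]
      exact (mul_le_mul (h1 v hv) (hv i) (a.nonneg _) hB.le).trans (le_max_left _ _)
    · have e1 : eval v (f * X i) - eval w (f * X i) =
          (eval v f - eval w f) * v i + eval w f * (v i - w i) := by
        rw [map_mul, map_mul, eval_X, eval_X]; ring
      rw [e1]
      refine (ha _ _).trans (max_le ?_ ?_)
      · rw [map_mul]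
        calc a (eval v f - eval w f) * a (v i) ≤ (B * r) * R :=
              mul_le_mul (h2 v w hv hw r hr hvw) (hv i) (a.nonneg _) (by positivity)
          _ = (B * R) * r := by ring
          _ ≤ _ := mul_le_mul_of_nonneg_right (le_max_left _ _) hr
      · rw [map_mul]
        exact (mul_le_mul (h1 w hw) (hvw i) (a.nonneg _) hB.le).trans
          (mul_le_mul_of_nonneg_right (le_max_right _ _) hr)

/-- Polynomials with close coefficients have close values on the unit ball. -/
theorem close_coeff [Fintype σ] (ha : ∀ x y, a (x + y) ≤ max (a x) (a y))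
    {f g : MvPolynomial σ L} {δ : ℝ} (hδ : 0 ≤ δ) (h : ∀ m, a (coeff m f - coeff m g) ≤ δ)
    {v : σ → L} (hv : ∀ i, a (v i) ≤ 1) : a (eval v f - eval v g) ≤ δ := by
  classical
  rw [← map_sub, eval_eq']
  have h1 : ∀ s : Finset (σ →₀ ℕ), a (∑ m ∈ s, coeff m (f - g) * ∏ i, v i ^ m i) ≤ δ := by
    intro s
    induction s using Finset.induction_on with
    | empty => rwa [Finset.sum_empty, map_zero]
    | insert m s hm ih =>
      rw [Finset.sum_insert hm]
      refine (ha _ _).trans (max_le ?_ ih)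
      rw [map_mul, coeff_sub]
      refine (mul_le_of_le_one_right (a.nonneg _) ?_).trans (h m)
      rw [map_prod]
      refine Finset.prod_le_one (fun i _ => a.nonneg _) fun i _ => ?_
      rw [map_pow]
      exact pow_le_one₀ (a.nonneg _) (hv i)
  exact h1 _

end Lip

section Tube

variable {L : Type} [Field L] [IsAlgClosed L] {a : AbsoluteValue L ℝ} {σ κ : Type} [Fintype σ]
  [Fintype κ]

/-- A point of the unit ball where the polynomials `g k` are small is near a common zero. -/
theorem tube (ha : ∀ x y, a (x + y) ≤ max (a x) (a y)) (g : κ → MvPolynomial σ L) {δ : ℝ}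
    (hδ : 0 < δ) : ∃ η : ℝ, 0 < η ∧ ∀ v : σ → L, (∀ i, a (v i) ≤ 1) →
      (∀ k, a (eval v (g k)) ≤ η) → ∃ y : σ → L, (∀ k, eval y (g k) = 0) ∧
        ∀ i, a (v i - y i) ≤ δ := by
  classical
  set I : Ideal (MvPolynomial σ L) := Ideal.span (Set.range g) with hI
  have hfin : I.minimalPrimes.Finite := Ideal.finite_minimalPrimes_of_isNoetherianRing _ I
  have : Fintype I.minimalPrimes := hfin.fintype
  have h1 : ∀ P : I.minimalPrimes, ∃ (J : Type) (_ : Fintype J) (Q : J → MvPolynomial σ L) (η : ℝ),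
      0 < η ∧ (∀ j, Q j ∈ P.1) ∧ ∀ v : σ → L, (∀ j, a (eval v (Q j)) ≤ η) →
        ∃ y : σ → L, (∀ f ∈ P.1, eval y f = 0) ∧ ∀ i, a (v i - y i) ≤ δ := by
    intro P
    have hP : P.1.IsPrime := P.2.1.1
    obtain ⟨m, U, J, hJ, l, H, η, hη, -, hQ, hv⟩ := near_prime (L₀ := L) (L := L) ha P.1 hδ
    refine ⟨J, hJ, fun j => comb U (l j) (H j), η, hη, hQ, fun v h => ?_⟩
    obtain ⟨y, h1, -, h3⟩ := hv v (fun j => eval v (U j)) fun j => by
      have h2 := h j
      rw [eval_comb] at h2
      exact h2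
    exact ⟨y, h1, h3⟩
  choose J hJ Q η hη hQ hv using h1
  set ηs : ℝ := ∏ P, η P with hηs
  have hηs0 : 0 < ηs := Finset.prod_pos fun P _ => hη P
  have h2 : ∀ c : (P : I.minimalPrimes) → J P, ∃ δ' : ℝ, 0 < δ' ∧ ∀ v : σ → L,
      (∀ i, a (v i) ≤ 1) → (∀ k, a (eval v (g k)) ≤ δ') →
        a (eval v (∏ P, Q P (c P))) ≤ ηs / 2 := by
    intro c
    refine Pool.Agent.Y129.TA.small ha g _ (fun v hvg => ?_) (by positivity)
    have h3 : I ≤ RingHom.ker (eval v : MvPolynomial σ L →+* L) := by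
      rw [hI, Ideal.span_le]
      rintro _ ⟨k, rfl⟩
      exact hvg k
    have h4 : (RingHom.ker (eval v : MvPolynomial σ L →+* L)).IsPrime := RingHom.ker_isPrime _
    obtain ⟨P, hP, hPv⟩ := Ideal.exists_minimalPrimes_le h3
    rw [map_prod]
    exact Finset.prod_eq_zero (Finset.mem_univ ⟨P, hP⟩) (hPv (hQ ⟨P, hP⟩ _))
  choose δ' hδ' hs using h2
  have hne : ∃ δ'' : ℝ, 0 < δ'' ∧ ∀ c, δ'' ≤ δ' c := by
    by_cases he : Nonempty ((P : I.minimalPrimes) → J P)
    · obtain ⟨c₀, hc₀⟩ := Finite.exists_min δ'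
      exact ⟨δ' c₀, hδ' c₀, hc₀⟩
    · exact ⟨1, one_pos, fun c => absurd ⟨c⟩ he⟩
  obtain ⟨δ'', hδ'', hmin⟩ := hne
  refine ⟨δ'', hδ'', fun v hv1 hvg => ?_⟩
  have h3 : ∃ P : I.minimalPrimes, ∀ j, a (eval v (Q P j)) ≤ η P := by
    by_contra hno
    push Not at hno
    choose c hc using hno
    have h4 := hs c v hv1 fun k => (hvg k).trans (hmin c)
    rw [map_prod, map_prod] at h4
    have h5 : ηs ≤ ∏ P, a (eval v (Q P (c P))) :=
      Finset.prod_le_prod (fun P _ => (hη P).le) fun P _ => (hc P).le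
    linarith
  obtain ⟨P, hP⟩ := h3
  obtain ⟨y, hy1, hy2⟩ := hv P v hP
  exact ⟨y, fun k => hy1 _ (P.2.1.2 (Ideal.subset_span ⟨k, rfl⟩)), hy2⟩

end Tube

section Spec

variable {L₀ L : Type} [Field L₀] [Field L] [Algebra L₀ L] [IsAlgClosed L₀]
  {a : AbsoluteValue L ℝ} {σ : Type} [Fintype σ]

/-- Specialisation: a point over `L` is near a point over the dense algebraically closed subfield `L₀`
which satisfies all polynomial equations over `L₀` of the given point. -/
theorem spec_point (ha : ∀ x y, a (x + y) ≤ max (a x) (a y))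
    (hdense : ∀ x : L, ∀ ε : ℝ, 0 < ε → ∃ y : L₀, a (x - algebraMap L₀ L y) ≤ ε) (c : σ → L)
    {δ : ℝ} (hδ : 0 < δ) : ∃ c' : σ → L₀,
      (∀ f : MvPolynomial σ L₀, aeval c f = 0 → eval c' f = 0) ∧
        ∀ i, a (c i - algebraMap L₀ L (c' i)) ≤ δ := by
  classical
  set P : Ideal (MvPolynomial σ L₀) := RingHom.ker (aeval c : MvPolynomial σ L₀ →ₐ[L₀] L) with hP
  have hPp : P.IsPrime := RingHom.ker_isPrime _
  obtain ⟨m, U, J, hJ, l, H, η, hη, -, hQ, hv⟩ := near_prime (L₀ := L₀) (L := L) ha P hδ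
  let w : Fin m → L := fun j => aeval c (U j)
  let G : J → MvPolynomial (Fin m) L := fun j =>
    (H j).eval₂ (MvPolynomial.map (algebraMap L₀ L)) (MvPolynomial.C (aeval c (l j)))
  have hG : ∀ j (u : Fin m → L), eval u (G j) =
      (H j).eval₂ (aeval u : MvPolynomial (Fin m) L₀ →ₐ[L₀] L).toRingHom (aeval c (l j)) := by
    intro j u
    simp only [G]
    rw [Polynomial.hom_eval₂, eval_C]
    congr 1
    refine MvPolynomial.ringHom_ext (fun b => ?_) fun i => ?_
    · simp
    · simp
  have hG0 : ∀ j, eval w (G j) = 0 := by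
    intro j
    rw [hG]
    have h1 : aeval c (comb U (l j) (H j)) = 0 := hQ j
    rwa [aeval_comb] at h1
  -- a radius
  obtain ⟨R, hR1, hRw⟩ : ∃ R : ℝ, 1 ≤ R ∧ ∀ j, a (w j) ≤ R := by
    refine ⟨1 + ∑ j, a (w j), ?_, fun j => ?_⟩
    · have : 0 ≤ ∑ j, a (w j) := Finset.sum_nonneg fun j _ => a.nonneg _
      linarith
    · have := Finset.single_le_sum (f := fun j => a (w j)) (fun j _ => a.nonneg _)
        (Finset.mem_univ j)
      linarith
  choose B hB hB1 hB2 using fun j => lipschitz ha (zero_lt_one.trans_le hR1) (G j)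
  set Bs : ℝ := 1 + ∑ j, B j with hBs
  have hBs0 : 0 < Bs := by
    have : 0 ≤ ∑ j, B j := Finset.sum_nonneg fun j _ => (hB j).le
    linarith
  have hBj : ∀ j, B j ≤ Bs := fun j => by
    have := Finset.single_le_sum (f := fun j => B j) (fun j _ => (hB j).le) (Finset.mem_univ j)
    linarith
  set r : ℝ := min 1 (η / Bs) with hr
  have hr0 : 0 < r := lt_min one_pos (by positivity)
  choose u hu using fun j => hdense (w j) r hr0
  have huR : ∀ j, a (algebraMap L₀ L (u j)) ≤ R := by
    intro j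
    have h1 : algebraMap L₀ L (u j) = w j - (w j - algebraMap L₀ L (u j)) := by ring
    rw [h1]
    exact (abs_sub_le' ha _ _).trans (max_le (hRw j) ((hu j).trans ((min_le_left _ _).trans hR1)))
  obtain ⟨y, hy1, -, hy2⟩ := hv c u fun j => by
    have h1 : (H j).eval₂ ((algebraMap L₀ L).comp (eval u)) (aeval c (l j)) =
        eval (fun i => algebraMap L₀ L (u i)) (G j) := by
      rw [hG]
      congr 1
      refine MvPolynomial.ringHom_ext (fun b => ?_) fun i => ?_
      · simp
      · simp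
    rw [h1]
    have h2 := hB2 j w (fun i => algebraMap L₀ L (u i)) hRw huR r hr0.le hu
    rw [hG0, zero_sub, AbsoluteValue.map_neg] at h2
    refine h2.trans ?_
    calc B j * r ≤ Bs * (η / Bs) := mul_le_mul (hBj j) (min_le_right _ _) hr0.le hBs0.le
      _ = η := by field_simp
  exact ⟨y, fun f hf => hy1 f hf, hy2⟩

end Spec

section Dens

variable {L : Type} [Field L] [IsAlgClosed L] {a : AbsoluteValue L ℝ} {σ : Type} [Fintype σ]

/-- A nonzero polynomial does not vanish at some points arbitrarily near a given point. -/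
theorem exists_nonzero_near {k : Type} [Field k] [Algebra k L]
    (hsmall : ∀ ε : ℝ, 0 < ε → ∃ x : k, x ≠ 0 ∧ a (algebraMap k L x) ≤ ε) {f : MvPolynomial σ k}
    (hf : f ≠ 0) (u₀ : σ → k) {ε : ℝ} (hε : 0 < ε) :
    ∃ u : σ → k, eval u f ≠ 0 ∧ ∀ i, a (algebraMap k L (u i) - algebraMap k L (u₀ i)) ≤ ε := by
  classical
  have hinf : Infinite k := by
    by_contra hfin
    rw [not_infinite_iff_finite] at hfin
    have : Fintype k := Fintype.ofFinite k
    have h1 : ∀ x : k, x ≠ 0 → a (algebraMap k L x) = 1 := by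
      intro x hx
      have h2 : x ^ (Fintype.card k - 1) = 1 := FiniteField.pow_card_sub_one_eq_one x hx
      have h3 : a (algebraMap k L x) ^ (Fintype.card k - 1) = 1 := by
        rw [← map_pow, ← map_pow, h2, map_one, map_one]
      refine (pow_eq_one_iff_of_nonneg (a.nonneg _) ?_).1 h3
      have := Fintype.one_lt_card (α := k)
      omega
    obtain ⟨x, hx, hx2⟩ := hsmall (1 / 2) (by norm_num)
    rw [h1 x hx] at hx2
    norm_num at hx2
  -- a point where `f` is not zero
  obtain ⟨w, hw⟩ : ∃ w : σ → k, eval w f ≠ 0 := by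
    by_contra hno
    push Not at hno
    exact hf (MvPolynomial.funext fun w => by rw [hno w, map_zero])
  -- the line through `u₀` and `w`
  let Q : Polynomial k := aeval (fun i => Polynomial.C (u₀ i) +
    Polynomial.X * Polynomial.C (w i - u₀ i)) f
  have hQ : ∀ s : k, Q.eval s = eval (fun i => u₀ i + s * (w i - u₀ i)) f := by
    intro s
    have h1 : (Polynomial.evalRingHom s).comp (aeval (fun i => Polynomial.C (u₀ i) +
        Polynomial.X * Polynomial.C (w i - u₀ i)) : MvPolynomial σ k →ₐ[k] Polynomial k).toRingHom =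
          (eval fun i => u₀ i + s * (w i - u₀ i)) := by
      refine MvPolynomial.ringHom_ext (fun c => ?_) fun i => ?_
      · simp
      · simp
    exact congrArg (fun χ : MvPolynomial σ k →+* k => χ f) h1
  have hQ0 : Q ≠ 0 := by
    intro h0
    have h1 := hQ 1
    rw [h0, Polynomial.eval_zero] at h1
    apply hw
    rw [h1]
    congr 2
    funext i
    ring
  -- a small element which is not a root
  obtain ⟨M, hM, hM'⟩ : ∃ M : ℝ, 0 < M ∧ ∀ i, a (algebraMap k L (w i - u₀ i)) ≤ M := by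
    refine ⟨1 + ∑ i, a (algebraMap k L (w i - u₀ i)), ?_, fun i => ?_⟩
    · have : 0 ≤ ∑ i, a (algebraMap k L (w i - u₀ i)) := Finset.sum_nonneg fun j _ => a.nonneg _
      linarith
    · have := Finset.single_le_sum (f := fun i => a (algebraMap k L (w i - u₀ i)))
        (fun j _ => a.nonneg _) (Finset.mem_univ i)
      linarith
  obtain ⟨s, hs1, hs2⟩ : ∃ s : k, Q.eval s ≠ 0 ∧ a (algebraMap k L s) ≤ ε / M := by
    by_contra hno
    push Not at hno
    have h1 : ∀ s : k, a (algebraMap k L s) ≤ ε / M → s ∈ Q.roots.toFinset := by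
      intro s hs
      rw [Multiset.mem_toFinset, Polynomial.mem_roots hQ0]
      by_contra h2
      exact absurd hs (not_le.2 (hno s h2))
    have h2 : {s : k | a (algebraMap k L s) ≤ ε / M}.Finite :=
      (Q.roots.toFinset.finite_toSet).subset fun s hs => h1 s hs
    obtain ⟨x, hx, hx2⟩ := hsmall (min 1 (ε / M)) (lt_min one_pos (by positivity))
    have hinf2 : Infinite {z : k // a (algebraMap k L z) ≤ 1} := (ball_infinite k a).to_subtype
    refine Set.infinite_of_injective_forall_mem (f := fun z : {z : k // a (algebraMap k L z) ≤ 1} =>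
      x * (z : k)) (fun z z' h => Subtype.ext (mul_left_cancel₀ hx h)) (fun z => ?_) h2
    change a (algebraMap k L (x * z)) ≤ ε / M
    rw [map_mul, map_mul]
    exact (mul_le_of_le_one_right (a.nonneg _) z.2).trans (hx2.trans (min_le_right _ _))
  refine ⟨fun i => u₀ i + s * (w i - u₀ i), by rwa [← hQ], fun i => ?_⟩
  rw [map_add, add_sub_cancel_left, map_mul, map_mul]
  calc a (algebraMap k L s) * a (algebraMap k L (w i - u₀ i)) ≤ (ε / M) * M :=
        mul_le_mul hs2 (hM' i) (a.nonneg _) (by positivity)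
    _ = ε := by field_simp

/-- The nonempty Zariski open subsets of an irreducible variety are dense. -/
theorem dense_open (ha : ∀ x y, a (x + y) ≤ max (a x) (a y))
    (hsmall : ∀ ε : ℝ, 0 < ε → ∃ x : L, x ≠ 0 ∧ a x ≤ ε) (P : Ideal (MvPolynomial σ L))
    [hP : P.IsPrime] {Φ : MvPolynomial σ L} (hΦ : Φ ∉ P) {t₀ : σ → L}
    (ht₀ : ∀ f ∈ P, eval t₀ f = 0) {δ : ℝ} (hδ : 0 < δ) :
    ∃ t : σ → L, (∀ f ∈ P, eval t f = 0) ∧ eval t Φ ≠ 0 ∧ ∀ i, a (t i - t₀ i) ≤ δ := by
  classical
  obtain ⟨m, U, J, hJ, l, H, η, hη, hmon, hQ, hv⟩ := near_prime (L₀ := L) (L := L) ha P hδ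
  obtain ⟨H', hm', hP'⟩ := hmon Φ
  obtain ⟨G, hG1, hG2⟩ := Polynomial.exists_eq_pow_rootMultiplicity_mul_and_not_dvd H' hm'.ne_zero 0
  set e := H'.rootMultiplicity 0 with he
  have hν : G.eval 0 ≠ 0 := fun h => hG2 (Polynomial.dvd_iff_isRoot.2 h)
  have hGP : comb U Φ G ∈ P := by
    have h1 : comb U Φ H' = Φ ^ e * comb U Φ G := by
      unfold comb
      conv_lhs => rw [hG1]
      rw [Polynomial.eval₂_mul, Polynomial.eval₂_pow, Polynomial.eval₂_sub, Polynomial.eval₂_X,
        Polynomial.eval₂_C, map_zero, sub_zero]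
    rw [h1] at hP'
    exact (hP.mem_or_mem hP').resolve_left fun h => hΦ (hP.mem_of_pow_mem e h)
  -- the Lipschitz estimates
  let w : Fin m → L := fun j => eval t₀ (U j)
  let Gp : J → MvPolynomial (Fin m) L := fun j =>
    (H j).eval₂ (RingHom.id _) (MvPolynomial.C (eval t₀ (l j)))
  have hGp : ∀ j (u : Fin m → L), eval u (Gp j) = (H j).eval₂ (eval u) (eval t₀ (l j)) := by
    intro j u
    simp only [Gp]
    rw [Polynomial.hom_eval₂, eval_C]
    congr 1
  have hG0 : ∀ j, eval w (Gp j) = 0 := by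
    intro j
    rw [hGp]
    have h1 := ht₀ _ (hQ j)
    rwa [eval_comb] at h1
  obtain ⟨R, hR1, hRw⟩ : ∃ R : ℝ, 1 ≤ R ∧ ∀ j, a (w j) ≤ R := by
    refine ⟨1 + ∑ j, a (w j), ?_, fun j => ?_⟩
    · have : 0 ≤ ∑ j, a (w j) := Finset.sum_nonneg fun j _ => a.nonneg _
      linarith
    · have := Finset.single_le_sum (f := fun j => a (w j)) (fun j _ => a.nonneg _)
        (Finset.mem_univ j)
      linarith
  choose B hB hB1 hB2 using fun j => lipschitz ha (zero_lt_one.trans_le hR1) (Gp j)
  set Bs : ℝ := 1 + ∑ j, B j with hBs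
  have hBs0 : 0 < Bs := by
    have : 0 ≤ ∑ j, B j := Finset.sum_nonneg fun j _ => (hB j).le
    linarith
  have hBj : ∀ j, B j ≤ Bs := fun j => by
    have := Finset.single_le_sum (f := fun j => B j) (fun j _ => (hB j).le) (Finset.mem_univ j)
    linarith
  set r : ℝ := min 1 (η / Bs) with hr
  have hr0 : 0 < r := lt_min one_pos (by positivity)
  obtain ⟨u, hu0, hu⟩ := exists_nonzero_near (k := L) (a := a) hsmall hν w hr0
  have hu' : ∀ j, a (w j - u j) ≤ r := by
    intro j
    rw [AbsoluteValue.map_sub]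
    exact hu j
  have huR : ∀ j, a (u j) ≤ R := by
    intro j
    have h1 : u j = w j - (w j - u j) := by ring
    rw [h1]
    exact (abs_sub_le' ha _ _).trans (max_le (hRw j) ((hu' j).trans ((min_le_left _ _).trans hR1)))
  obtain ⟨y, hy1, hy2, hy3⟩ := hv t₀ u fun j => by
    have h1 : (H j).eval₂ ((algebraMap L L).comp (eval u)) (aeval t₀ (l j)) = eval u (Gp j) := by
      rw [hGp]
      rfl
    rw [h1]
    have h2 := hB2 j w u hRw huR r hr0.le hu'
    rw [hG0, zero_sub, AbsoluteValue.map_neg] at h2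
    refine h2.trans ?_
    calc B j * r ≤ Bs * (η / Bs) := mul_le_mul (hBj j) (min_le_right _ _) hr0.le hBs0.le
      _ = η := by field_simp
  refine ⟨y, hy1, fun h0 => hu0 ?_, fun i => ?_⟩
  · have h1 := hy1 _ hGP
    rw [eval_comb, h0] at h1
    have h2 : (fun j => eval y (U j)) = u := funext hy2
    rw [h2] at h1
    rw [← h1, Polynomial.eval₂_eq_eval_map, ← Polynomial.coeff_zero_eq_eval_zero,
      ← Polynomial.coeff_zero_eq_eval_zero, Polynomial.coeff_map]
  · rw [AbsoluteValue.map_sub]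
    exact hy3 i

end Dens

end Pool.Agent.K7.H6.PT
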